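import Pool.Agent.Lib.MP_80affc_lc.Defs

/-!
# MP_80affc_lc : the general construction of incompact graphs

`U α m` (`m ∈ K`) are decreasing sets of points smaller than `α`.  A set `D` is called discrete if
every `α ∈ D` has an `m` with `U α m ∩ D = ∅`.  If `X` is not a union of `#K` discrete sets but
every smaller subset of `X` is, then compactness for chromatic number at most `#K` fails at `#Λ`,
provided that the subsets of `Λ` of size `#K` have a cofinal family of size `#Λ`, and that there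
is an unbounded family of at most `#Λ` functions `K → K`.
-/

set_option autoImplicit false

namespace ChromComp

open Cardinal Set

/-- choice of a colour avoiding the given ones -/
theorem exists_pick {K B : Type} (P : B → Prop) (f : B → K) (h : #{b | P b} < #K) :
    ∃ k, ∀ b, P b → f b ≠ k := by
  by_contra hcon
  push Not at hcon
  have h1 : (Set.univ : Set K) ⊆ f '' {b | P b} := by
    intro k _
    obtain ⟨b, hb, hbk⟩ := hcon k
    exact ⟨b, hb, hbk⟩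
  have h2 := (mk_le_mk_of_subset h1).trans mk_image_le
  rw [mk_univ] at h2
  exact absurd h (not_lt.2 h2)

section

variable {Λ K : Type} [LinearOrder Λ] [WellFoundedLT Λ] [LinearOrder K]

/-- the data of the construction -/
structure Data (Λ K : Type) [LinearOrder Λ] [LinearOrder K] where
  X : Set Λ
  U : Λ → K → Set Λ
  N : Λ → Set (Λ × Λ × Λ)
  ι : Λ → (Λ × Λ × Λ) → K
  f : Λ → K → K
  anti : ∀ α m m', m ≤ m' → U α m' ⊆ U α m
  lt : ∀ α m, ∀ β ∈ U α m, β < α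
  inj : ∀ a, Set.InjOn (ι a) (N a)
  mono : ∀ b, Monotone (f b)

/-- `y` is in the list of `x` -/
def Data.Dn (d : Data Λ K) (y x : Λ × Λ × Λ) : Prop :=
  x.1 ∈ d.X ∧ y ∈ d.N x.2.1 ∧ ∃ m, y.1 ∈ d.U x.1 m ∧ d.ι x.2.1 y ≤ d.f x.2.2 m

omit [WellFoundedLT Λ] in
theorem Data.Dn.lt {d : Data Λ K} {y x : Λ × Λ × Λ} (h : d.Dn y x) : y.1 < x.1 := by
  obtain ⟨-, -, m, hm, -⟩ := h
  exact d.lt _ _ _ hm

/-- the graph -/
def Data.G (d : Data Λ K) : SimpleGraph (Λ × Λ × Λ) where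
  Adj x y := d.Dn y x ∨ d.Dn x y
  symm := ⟨fun _ _ h => h.symm⟩
  loopless := ⟨fun _ h => by
    rcases h with h | h
    · exact lt_irrefl _ h.lt
    · exact lt_irrefl _ h.lt⟩

/-- colouring a small part of the graph -/
theorem Data.small (d : Data Λ K) (hK : ℵ₀ ≤ #K) (hini : ∀ k : K, #(Set.Iic k) < #K)
    (W : Set (Λ × Λ × Λ)) (D : K → Set Λ) (hD : ∀ x ∈ W, x.1 ∈ d.X → ∃ k, x.1 ∈ D k)
    (hdis : ∀ k, ∀ α ∈ D k, ∃ m, ∀ β ∈ d.U α m, β ∉ D k) :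
    ChromLE (d.G.induce W) #K := by
  classical
  have hne : Nonempty K := mk_ne_zero_iff.1 (aleph0_pos.trans_le hK).ne'
  have hτ : ∀ α : Λ, ∃ k : K, (∃ k', α ∈ D k') → α ∈ D k := by
    intro α
    by_cases h : ∃ k', α ∈ D k'
    · obtain ⟨k, hk⟩ := h
      exact ⟨k, fun _ => hk⟩
    · exact ⟨hne.some, fun h' => absurd h' h⟩
  choose τ hτ using hτ
  have hm : ∀ α : Λ, ∃ m : K, α ∈ D (τ α) → ∀ β ∈ d.U α m, β ∉ D (τ α) := by
    intro α
    by_cases h : α ∈ D (τ α)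
    · obtain ⟨m, hm⟩ := hdis _ α h
      exact ⟨m, fun _ => hm⟩
    · exact ⟨hne.some, fun h' => absurd h' h⟩
  choose mm hmm using hm
  -- the number of bad members of a list
  have hsmall : ∀ x : Λ × Λ × Λ, #{y | d.Dn y x ∧ y.1 ∉ d.U x.1 (mm x.1)} < #K := by
    intro x
    have h1 : ∀ y ∈ {y | d.Dn y x ∧ y.1 ∉ d.U x.1 (mm x.1)},
        d.ι x.2.1 y ∈ Set.Iic (d.f x.2.2 (mm x.1)) := by
      rintro y ⟨⟨-, -, m, hm1, hm2⟩, hy⟩
      have h2 : m < mm x.1 := by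
        by_contra h3
        exact hy (d.anti _ _ _ (not_lt.1 h3) hm1)
      exact hm2.trans (d.mono _ h2.le)
    refine lt_of_le_of_lt ?_ (hini (d.f x.2.2 (mm x.1)))
    refine Cardinal.mk_le_of_injective (f := fun y => ⟨d.ι x.2.1 y.1, h1 y.1 y.2⟩) ?_
    intro y z hyz
    apply Subtype.ext
    have h3 : d.ι x.2.1 y.1 = d.ι x.2.1 z.1 := congrArg Subtype.val hyz
    exact d.inj x.2.1 y.2.1.2.1 z.2.1.2.1 h3
  -- the second coordinate
  have hwf : WellFounded (fun y x : Λ × Λ × Λ => y.1 < x.1) := InvImage.wf Prod.fst wellFounded_lt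
  have hsm : ∀ x : Λ × Λ × Λ,
      #{y : {y : Λ × Λ × Λ // y.1 < x.1} | d.Dn y.1 x ∧ y.1.1 ∉ d.U x.1 (mm x.1)} < #K := by
    intro x
    refine lt_of_le_of_lt ?_ (hsmall x)
    refine Cardinal.mk_le_of_injective (f := fun y => ⟨y.1.1, y.2⟩) ?_
    intro y z hyz
    exact Subtype.ext (Subtype.ext (Subtype.mk.inj hyz))
  let v : Λ × Λ × Λ → K := hwf.fix (fun x ih =>
    (exists_pick (fun y : {y : Λ × Λ × Λ // y.1 < x.1} => d.Dn y.1 x ∧ y.1.1 ∉ d.U x.1 (mm x.1))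
      (fun y => ih y.1 y.2) (hsm x)).choose)
  have hv : ∀ x y : Λ × Λ × Λ, d.Dn y x → y.1 ∉ d.U x.1 (mm x.1) → v y ≠ v x := by
    intro x y h1 h2
    have h3 : v x = _ := hwf.fix_eq _ x
    rw [h3]
    exact (exists_pick (fun y : {y : Λ × Λ × Λ // y.1 < x.1} => d.Dn y.1 x ∧
      y.1.1 ∉ d.U x.1 (mm x.1)) (fun y => v y.1) (hsm x)).choose_spec ⟨y, h1.lt⟩ ⟨h1, h2⟩
  have key : ∀ x y : Λ × Λ × Λ, x ∈ W → y ∈ W → d.Dn y x →
      ((if x.1 ∈ d.X then some (τ x.1) else none : Option K), v x) ≠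
      ((if y.1 ∈ d.X then some (τ y.1) else none : Option K), v y) := by
    intro x y hxW hyW h heq
    rw [Prod.mk.injEq] at heq
    obtain ⟨h1, h2⟩ := heq
    have hxX : x.1 ∈ d.X := h.1
    rw [if_pos hxX] at h1
    by_cases hyX : y.1 ∈ d.X
    · rw [if_pos hyX] at h1
      have h3 : τ x.1 = τ y.1 := Option.some.inj h1
      by_cases h4 : y.1 ∈ d.U x.1 (mm x.1)
      · have h5 := hmm x.1 (hτ x.1 (hD x hxW hxX)) y.1 h4
        rw [h3] at h5
        exact h5 (hτ y.1 (hD y hyW hyX))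
      · exact hv x y h h4 h2.symm
    · rw [if_neg hyX] at h1
      exact absurd h1 (by simp)
  refine ⟨Option K × K, ?_, ⟨SimpleGraph.Coloring.mk
    (fun x => ((if x.1.1 ∈ d.X then some (τ x.1.1) else none : Option K), v x.1)) ?_⟩⟩
  · rw [mk_prod, Cardinal.lift_id, Cardinal.lift_id, mk_option, add_one_eq hK, mul_eq_self hK]
  · intro x y hxy
    have hxy' : d.G.Adj x.1 y.1 := hxy
    rcases hxy' with h | h
    · exact key x.1 y.1 x.2 y.2 h
    · exact (key y.1 x.1 y.2 x.2 h).symm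

omit [WellFoundedLT Λ] in
/-- the chromatic number of the graph is large -/
theorem Data.large (d : Data Λ K) (hK : ℵ₀ ≤ #K) (hini : ∀ k : K, #(Set.Iic k) < #K)
    (hreg : ∀ s : Set K, #s < #K → BddAbove s)
    (hN : ∀ A : Set (Λ × Λ × Λ), #A ≤ #K → ∃ a, A ⊆ d.N a)
    (hf : ∀ F : K → K, ∃ b, ∀ m, ∃ m' ≥ m, F m' ≤ d.f b m')
    (hNF : ∀ (C : Type) (D : C → Set Λ), #C ≤ #K → (∀ α ∈ d.X, ∃ k, α ∈ D k) →
      ∃ k, ∃ α ∈ D k, α ∈ d.X ∧ ∀ m, ∃ β ∈ d.U α m, β ∈ D k) :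
    ¬ ChromLE d.G #K := by
  classical
  rintro ⟨C, hC, ⟨c⟩⟩
  -- the colours used at a point
  let T : Λ → Set C := fun α => {k | ∃ x : Λ × Λ × Λ, x.1 = α ∧ c x = k}
  have hex : ∃ α ∈ d.X, ∀ k ∈ T α, ∀ m, ∃ β ∈ d.U α m, k ∈ T β := by
    by_contra hcon
    push Not at hcon
    have h1 : ∀ α, ∃ k, α ∈ d.X → k ∈ T α ∧ ∃ m, ∀ β ∈ d.U α m, k ∉ T β := by
      intro α
      by_cases h : α ∈ d.X
      · obtain ⟨k, hk, m, hm⟩ := hcon α h
        exact ⟨k, fun _ => ⟨hk, m, hm⟩⟩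
      · exact ⟨c (α, α, α), fun h' => absurd h' h⟩
    choose κ hκ using h1
    obtain ⟨k, α, hα, hαX, hα2⟩ := hNF C (fun k => {α | α ∈ d.X ∧ κ α = k}) hC
      (fun α hα => ⟨κ α, hα, rfl⟩)
    obtain ⟨-, m, hm⟩ := hκ α hαX
    obtain ⟨β, hβ, hβX, hβk⟩ := hα2 m
    have h3 := hm β hβ
    have h4 := (hκ β hβX).1
    rw [hβk] at h4
    rw [hα.2] at h3
    exact h3 h4
  obtain ⟨α, hαX, hα⟩ := hex
  have hY : ∀ (k : T α) (m : K), ∃ y : Λ × Λ × Λ, y.1 ∈ d.U α m ∧ c y = k := by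
    intro k m
    obtain ⟨β, hβ, y, hy, hyk⟩ := hα k.1 k.2 m
    exact ⟨y, by rw [hy]; exact hβ, hyk⟩
  choose Y hY1 hY2 using hY
  have hTK : #(T α) ≤ #K := (mk_set_le _).trans hC
  have hTK' := hTK
  obtain ⟨⟨j, hj⟩⟩ := hTK
  have hA : #(Set.range (fun p : T α × K => Y p.1 p.2)) ≤ #K := by
    refine mk_range_le.trans ?_
    rw [mk_prod, Cardinal.lift_id, Cardinal.lift_id]
    exact (mul_le_mul' hTK' le_rfl).trans (mul_eq_self hK).le
  obtain ⟨a, ha⟩ := hN _ hA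
  have hF : ∀ m : K, ∃ F : K, ∀ k : T α, j k ≤ m → d.ι a (Y k m) ≤ F := by
    intro m
    have h1 : #((fun k => d.ι a (Y k m)) '' {k : T α | j k ≤ m}) < #K := by
      refine mk_image_le.trans_lt (lt_of_le_of_lt ?_ (hini m))
      refine Cardinal.mk_le_of_injective (f := fun k => ⟨j k.1, k.2⟩) ?_
      intro k k' h
      exact Subtype.ext (hj (congrArg Subtype.val h))
    obtain ⟨F, hF⟩ := hreg _ h1
    exact ⟨F, fun k hk => hF ⟨k, hk, rfl⟩⟩
  choose F hF using hF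
  obtain ⟨b, hb⟩ := hf F
  let x : Λ × Λ × Λ := (α, a, b)
  let k : T α := ⟨c x, x, rfl, rfl⟩
  obtain ⟨m, hm, hFm⟩ := hb (j k)
  have hdn : d.Dn (Y k m) x := by
    refine ⟨hαX, ha ⟨(k, m), rfl⟩, m, hY1 k m, ?_⟩
    exact (hF m k hm).trans hFm
  have hadj : d.G.Adj x (Y k m) := Or.inl hdn
  apply c.valid hadj
  rw [hY2 k m]

/-- The general incompactness theorem. -/
theorem incompact [WellFoundedLT K] (hK : ℵ₀ ≤ #K) (hKΛ : #K < #Λ) (hini : ∀ k : K, #(Set.Iic k) < #K)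
    (hreg : ∀ s : Set K, #s < #K → BddAbove s)
    (hcov : Covering Λ #K) (hb : Unbounded Λ K)
    (X : Set Λ) (U : Λ → K → Set Λ) (hanti : ∀ α m m', m ≤ m' → U α m' ⊆ U α m)
    (hlt : ∀ α m, ∀ β ∈ U α m, β < α)
    (hF : ∀ Y : Set Λ, Y ⊆ X → #Y < #Λ → ∃ D : K → Set Λ, (∀ α ∈ Y, ∃ k, α ∈ D k) ∧
      ∀ k, ∀ α ∈ D k, ∃ m, ∀ β ∈ U α m, β ∉ D k)
    (hNF : ∀ (C : Type) (D : C → Set Λ), #C ≤ #K → (∀ α ∈ X, ∃ k, α ∈ D k) →
      ∃ k, ∃ α ∈ D k, α ∈ X ∧ ∀ m, ∃ β ∈ U α m, β ∈ D k) :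
    ¬ Compact #Λ #K := by
  classical
  intro hcomp
  have hΛ : ℵ₀ ≤ #Λ := hK.trans hKΛ.le
  have hneK : Nonempty K := mk_ne_zero_iff.1 (aleph0_pos.trans_le hK).ne'
  have hneΛ : Nonempty Λ := mk_ne_zero_iff.1 (aleph0_pos.trans_le hΛ).ne'
  have hV : #(Λ × Λ × Λ) = #Λ := by
    rw [mk_prod, mk_prod]
    simp only [Cardinal.lift_id]
    rw [mul_eq_self hΛ, mul_eq_self hΛ]
  obtain ⟨e⟩ := Cardinal.eq.1 hV
  obtain ⟨N, hN1, hN2⟩ := hcov
  obtain ⟨f, hf⟩ := hb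
  -- injections
  have hι : ∀ a, ∃ i : Λ × Λ × Λ → K, Set.InjOn i (e.symm '' N a) := by
    intro a
    have h1 : #(e.symm '' N a) ≤ #K := mk_image_le.trans (hN1 a)
    obtain ⟨⟨i, hi⟩⟩ := h1
    refine ⟨fun y => if h : y ∈ e.symm '' N a then i ⟨y, h⟩ else hneK.some, ?_⟩
    intro y hy z hz hyz
    simp only [hy, hz, dif_pos] at hyz
    exact congrArg Subtype.val (hi hyz)
  choose ι hι using hι
  -- monotone functions
  have hmono : ∀ b, ∃ g : K → K, Monotone g ∧ ∀ m, f b m ≤ g m := by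
    intro b
    have h1 : ∀ m, ∃ k, ∀ i ≤ m, f b i ≤ k := by
      intro m
      obtain ⟨k, hk⟩ := hreg (f b '' Set.Iic m) (mk_image_le.trans_lt (hini m))
      exact ⟨k, fun i hi => hk ⟨i, hi, rfl⟩⟩
    refine ⟨fun m => wellFounded_lt.min {k | ∀ i ≤ m, f b i ≤ k} (h1 m), ?_, ?_⟩
    · intro m m' hmm
      apply not_lt.1
      apply wellFounded_lt.not_lt_min
      intro i hi
      exact wellFounded_lt.min_mem {k | ∀ i ≤ m', f b i ≤ k} (h1 m') i (hi.trans hmm)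
    · intro m
      exact wellFounded_lt.min_mem {k | ∀ i ≤ m, f b i ≤ k} (h1 m) m le_rfl
  choose g hg1 hg2 using hmono
  let d : Data Λ K := {
    X := X
    U := U
    N := fun a => e.symm '' N a
    ι := ι
    f := g
    anti := hanti
    lt := hlt
    inj := hι
    mono := hg1 }
  have hlarge : ¬ ChromLE d.G #K := by
    apply d.large hK hini hreg
    · intro A hA
      obtain ⟨a, ha⟩ := hN2 (e '' A) (mk_image_le.trans hA)
      refine ⟨a, fun y hy => ?_⟩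
      exact ⟨e y, ha ⟨y, hy, rfl⟩, e.symm_apply_apply y⟩
    · intro F
      obtain ⟨b, hb⟩ := hf F
      refine ⟨b, fun m => ?_⟩
      obtain ⟨m', hm', h⟩ := hb m
      exact ⟨m', hm', h.trans (hg2 b m')⟩
    · exact hNF
  apply hlarge
  apply hcomp _ d.G hV
  intro W hW
  obtain ⟨D, hD1, hD2⟩ := hF (Prod.fst '' W ∩ X) Set.inter_subset_right
    ((mk_le_mk_of_subset Set.inter_subset_left).trans_lt (mk_image_le.trans_lt hW))
  apply d.small hK hini W D ?_ hD2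
  intro x hx hxX
  exact hD1 x.1 ⟨⟨x, hx, rfl⟩, hxX⟩

end

end ChromComp
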