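import Pool.Agent.Lib.MP_80affc_lc.Defs

/-!
# MP_80affc_lc : joint compactness for decreasing sequences of graphs, in ZFC

Let `G 0 ⊇ G 1 ⊇ ...` be graphs on `V`.  Take an uncountable set `P` of reals of size `ℵ₁` and
the graph on `V × P` in which `(x, p)` and `(y, q)` are joined if `p ≠ q` and `x`, `y` are joined
in `G m`, `m` the first difference of `p` and `q`.  It has a countable colouring if and only if
`V` is the union of sets `V m` which are independent in `G m`.
-/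

set_option autoImplicit false

namespace ChromComp

open Cardinal Set

/-- The set `W` is a union of sets `W m`, `m ∈ ℕ`, such that `W m` is independent in `G m`. -/
def Splits {V : Type} (G : ℕ → SimpleGraph V) (W : Set V) : Prop :=
  ∃ c : V → ℕ, ∀ x ∈ W, ∀ y ∈ W, c x = c y → ¬ (G (c x)).Adj x y

/-- the graph on `V × P` -/
def realG {V : Type} (G : ℕ → SimpleGraph V) (P : Set (ℕ → Bool)) : SimpleGraph (V × P) where
  Adj a b := (a.2 : ℕ → Bool) ≠ b.2 ∧ (G (PiNat.firstDiff (a.2 : ℕ → Bool) b.2)).Adj a.1 b.1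
  symm := ⟨fun a b h => ⟨h.1.symm, by
    rw [PiNat.firstDiff_comm]
    exact h.2.symm⟩⟩
  loopless := ⟨fun _ h => h.1 rfl⟩

theorem realG_small {V : Type} {G : ℕ → SimpleGraph V} (hG : Antitone G) (P : Set (ℕ → Bool))
    {W : Set V} (hW : Splits G W) (W' : Set (V × P)) (hW' : ∀ a ∈ W', a.1 ∈ W) :
    ChromLE ((realG G P).induce W') ℵ₀ := by
  obtain ⟨c, hc⟩ := hW
  refine ⟨Σ k : ℕ, (Fin (k + 1) → Bool), mk_le_aleph0, ⟨SimpleGraph.Coloring.mk
    (fun a => ⟨c a.1.1, fun i => (a.1.2 : ℕ → Bool) i⟩) ?_⟩⟩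
  rintro ⟨⟨x, p⟩, ha⟩ ⟨⟨y, q⟩, hb⟩ ⟨hne, hadj⟩ heq
  have e1 : c x = c y := congrArg Sigma.fst heq
  have e3 : ∀ s t : Σ k : ℕ, (Fin (k + 1) → Bool), s = t → ∀ n (h1 : n < s.1 + 1)
      (h2 : n < t.1 + 1), s.2 ⟨n, h1⟩ = t.2 ⟨n, h2⟩ := by
    rintro s t rfl _ _ _
    rfl
  have e4 : ∀ n ≤ c x, (p : ℕ → Bool) n = (q : ℕ → Bool) n := fun n hn =>
    e3 _ _ heq n (Nat.lt_succ_of_le hn) (Nat.lt_succ_of_le (e1 ▸ hn))
  have h5 : c x ≤ PiNat.firstDiff (p : ℕ → Bool) q := by
    by_contra hlt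
    push Not at hlt
    exact PiNat.apply_firstDiff_ne hne (e4 _ hlt.le)
  exact hc x (hW' _ ha) y (hW' _ hb) e1 (hG h5 hadj)

theorem splits_of_realG {V : Type} {G : ℕ → SimpleGraph V} (hG : Antitone G)
    (P : Set (ℕ → Bool)) (hP : ℵ₀ < #P) (h : ChromLE (realG G P) ℵ₀) : Splits G Set.univ := by
  classical
  obtain ⟨C, hC, ⟨col⟩⟩ := h
  have hex : ∀ x : V, ∃ p q : P, (p : ℕ → Bool) ≠ q ∧ col (x, p) = col (x, q) ∧
      (p : ℕ → Bool) (PiNat.firstDiff (p : ℕ → Bool) q) = false ∧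
      (q : ℕ → Bool) (PiNat.firstDiff (p : ℕ → Bool) q) = true := by
    intro x
    have h1 : ¬ Function.Injective (fun p : P => col (x, p)) := by
      intro hinj
      exact absurd ((Cardinal.mk_le_of_injective hinj).trans hC) (not_le.2 hP)
    rw [Function.Injective] at h1
    push Not at h1
    obtain ⟨p, q, hpq, hne⟩ := h1
    have hne' : (p : ℕ → Bool) ≠ q := fun h' => hne (Subtype.ext h')
    have h2 := PiNat.apply_firstDiff_ne hne'
    rcases hb : (p : ℕ → Bool) (PiNat.firstDiff (p : ℕ → Bool) q) with _ | _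
    · refine ⟨p, q, hne', hpq, hb, ?_⟩
      rw [hb] at h2
      simpa using h2.symm
    · refine ⟨q, p, hne'.symm, hpq.symm, ?_, ?_⟩
      · rw [PiNat.firstDiff_comm]
        rw [hb] at h2
        simpa using h2.symm
      · rw [PiNat.firstDiff_comm]
        exact hb
  choose p q hne hcol hp hq using hex
  rw [← mk_nat] at hC
  obtain ⟨j⟩ := hC
  let n : V → ℕ := fun x => PiNat.firstDiff (p x : ℕ → Bool) (q x)
  let σ : V → Finset ℕ := fun x => (Finset.range (n x)).filter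
    (fun i => (p x : ℕ → Bool) i = true)
  refine ⟨fun x => Nat.pair (n x) (Nat.pair (j (col (x, p x))) (Encodable.encode (σ x))), ?_⟩
  intro x _ y _ hxy hadj
  have hxy' : Nat.pair (n x) (Nat.pair (j (col (x, p x))) (Encodable.encode (σ x))) =
    Nat.pair (n y) (Nat.pair (j (col (y, p y))) (Encodable.encode (σ y))) := hxy
  rw [Nat.pair_eq_pair, Nat.pair_eq_pair] at hxy'
  obtain ⟨e1, e2, e3⟩ := hxy'
  have e2' := j.injective e2
  have e3' := Encodable.encode_injective e3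
  have hag : ∀ i < n x, (p x : ℕ → Bool) i = (p y : ℕ → Bool) i := by
    intro i hi
    have h1 : i ∈ σ x ↔ i ∈ σ y := by rw [e3']
    simp only [σ, Finset.mem_filter, Finset.mem_range, ← e1, hi, true_and] at h1
    rw [Bool.eq_iff_iff]
    exact h1
  have hagy : ∀ i < n y, (p y : ℕ → Bool) i = (q y : ℕ → Bool) i := fun i hi =>
    PiNat.apply_eq_of_lt_firstDiff hi
  have hne2 : (p x : ℕ → Bool) (n x) ≠ (q y : ℕ → Bool) (n x) := by
    rw [hp x, e1, hq y]
    simp
  have hne3 : (p x : ℕ → Bool) ≠ q y := fun h' => hne2 (by rw [h'])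
  have hfd : n x ≤ PiNat.firstDiff (p x : ℕ → Bool) (q y) := by
    by_contra hlt
    push Not at hlt
    apply PiNat.apply_firstDiff_ne hne3
    rw [hag _ hlt]
    exact hagy _ (e1 ▸ hlt)
  have hfd2 : PiNat.firstDiff (p x : ℕ → Bool) (q y) ≤ n x := by
    by_contra hlt
    push Not at hlt
    exact hne2 (PiNat.apply_eq_of_lt_firstDiff hlt)
  have hfd3 : PiNat.firstDiff (p x : ℕ → Bool) (q y) = n x := le_antisymm hfd2 hfd
  have hadj' : (realG G P).Adj (x, p x) (y, q y) := by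
    refine ⟨hne3, ?_⟩
    show (G (PiNat.firstDiff (p x : ℕ → Bool) (q y))).Adj x y
    rw [hfd3]
    exact hG (Nat.left_le_pair _ _) hadj
  apply col.valid hadj'
  rw [e2', hcol y]

/-- Joint compactness. -/
theorem joint {lam : Cardinal.{0}} (hlam : ℵ₀ < lam) (h : Compact lam ℵ₀) (V : Type)
    (hV : #V = lam) (G : ℕ → SimpleGraph V) (hG : Antitone G)
    (hsmall : ∀ W : Set V, #W < lam → Splits G W) : Splits G Set.univ := by
  have h1 : (ℵ_ 1 : Cardinal.{0}) ≤ #(ℕ → Bool) := by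
    have h2 : #(ℕ → Bool) = Cardinal.continuum := by simp
    rw [h2]
    exact aleph_one_le_continuum
  obtain ⟨P, hP⟩ := le_mk_iff_exists_set.1 h1
  have hP' : ℵ₀ < #P := by
    rw [hP]
    exact aleph0_lt_aleph_one
  apply splits_of_realG hG P hP'
  apply h (V × P) (realG G P)
  · rw [mk_prod, Cardinal.lift_id, Cardinal.lift_id, hV, hP]
    apply mul_eq_left hlam.le _ (aleph_pos 1).ne'
    rw [← succ_aleph0]
    exact Order.succ_le_of_lt hlam
  · intro W' hW'
    apply realG_small hG P (hsmall (Prod.fst '' W') (mk_image_le.trans_lt hW'))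
    intro a ha
    exact ⟨a, ha, rfl⟩

end ChromComp
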