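import Pool.Agent.Lib.MP_80affc_lc.Defs
import Pool.Agent.Lib.MP_80affc_lc.General
import Pool.Agent.Lib.MP_80affc_lc.Real

section

/-!
# MP_80affc_lc : the line digraph

Compactness for chromatic number at most `mu` implies compactness for chromatic number at most
`2 ^ mu`.  The vertices of the line digraph are the pairs of vertices, `(u, v)` and `(v, w)` are
adjacent if `u`, `v` and `v`, `w` are adjacent.
-/

set_option autoImplicit false

namespace ChromComp

open Cardinal Ordinal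

variable {V : Type}

/-- The (symmetrised) line digraph of `G`. -/
def lineG (G : SimpleGraph V) : SimpleGraph (V × V) where
  Adj p q := G.Adj p.1 p.2 ∧ G.Adj q.1 q.2 ∧ (p.2 = q.1 ∨ q.2 = p.1)
  symm := ⟨fun _ _ h => ⟨h.2.1, h.1, h.2.2.symm⟩⟩
  loopless := ⟨fun p h => by
    rcases h.2.2 with h1 | h1
    · exact h.1.ne h1.symm
    · exact h.1.ne h1.symm⟩

/-- A colouring of the line digraph gives a colouring with sets of colours. -/
theorem lineG_to {G : SimpleGraph V} {mu : Cardinal.{0}} (h : ChromLE (lineG G) mu) :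
    ChromLE G (2 ^ mu) := by
  obtain ⟨C, hC, ⟨c⟩⟩ := h
  refine ⟨Set C, ?_, ⟨SimpleGraph.Coloring.mk (fun v => {k | ∃ w, G.Adj v w ∧ c (v, w) = k}) ?_⟩⟩
  · rw [mk_set]
    exact Cardinal.power_le_power_left two_ne_zero hC
  · intro u v huv heq
    have h1 : c (u, v) ∈ {k | ∃ w, G.Adj u w ∧ c (u, w) = k} := ⟨v, huv, rfl⟩
    rw [heq] at h1
    obtain ⟨w, hvw, hw⟩ := h1
    exact c.valid (show (lineG G).Adj (u, v) (v, w) from ⟨huv, hvw, Or.inl rfl⟩) hw.symm

/-- A colouring with sets of colours gives a colouring of the line digraph. -/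
theorem lineG_of {G : SimpleGraph V} {mu : Cardinal.{0}} (hmu : ℵ₀ ≤ mu) (W : Set V)
    (h : ChromLE (G.induce W) (2 ^ mu)) (P : Set (V × V)) (hP : ∀ p ∈ P, p.1 ∈ W ∧ p.2 ∈ W) :
    ChromLE ((lineG G).induce P) mu := by
  classical
  obtain ⟨C, hC, ⟨c⟩⟩ := h
  have hmo : #(mu.out) = mu := mk_out mu
  have h2 : #C ≤ #(Set mu.out) := by
    rw [mk_set, hmo]
    exact hC
  obtain ⟨f⟩ := h2
  have hne : Nonempty mu.out := by
    rw [← mk_ne_zero_iff, hmo]
    exact (aleph0_pos.trans_le hmu).ne'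
  -- the set of colours of a vertex of `W`
  set r : W → Set mu.out := fun v => f (c v) with hr
  have hrne : ∀ u v : W, G.Adj u v → r u ≠ r v := by
    intro u v huv heq
    have h3 : c u = c v := f.injective heq
    exact c.valid (show (G.induce W).Adj u v from huv) h3
  have hex : ∀ p : P, ∃ a : mu.out, G.Adj p.1.1 p.1.2 →
      ((a ∈ r ⟨p.1.1, (hP p.1 p.2).1⟩) ↔ ¬ (a ∈ r ⟨p.1.2, (hP p.1 p.2).2⟩)) := by
    intro p
    by_cases hp : G.Adj p.1.1 p.1.2
    · have h4 := hrne ⟨p.1.1, (hP p.1 p.2).1⟩ ⟨p.1.2, (hP p.1 p.2).2⟩ hp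
      obtain ⟨a, ha⟩ := not_forall.1 (mt Set.ext h4)
      refine ⟨a, fun _ => ?_⟩
      tauto
    · exact ⟨hne.some, fun h5 => absurd h5 hp⟩
  choose a ha using hex
  refine ⟨mu.out × Bool, ?_, ⟨SimpleGraph.Coloring.mk
    (fun p => (a p, decide (a p ∈ r ⟨p.1.1, (hP p.1 p.2).1⟩))) ?_⟩⟩
  · rw [mk_prod, Cardinal.lift_id, Cardinal.lift_id, hmo, mk_bool]
    exact (mul_eq_left hmu ((Cardinal.natCast_lt_aleph0 (n := 2)).le.trans hmu) two_ne_zero).le
  · intro p q hpq heq
    have hadj : (lineG G).Adj p.1 q.1 := hpq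
    obtain ⟨h1, h2, h3⟩ := hadj
    have e1 : a p = a q := (Prod.ext_iff.1 heq).1
    have e2 : decide (a p ∈ r ⟨p.1.1, (hP p.1 p.2).1⟩) =
        decide (a q ∈ r ⟨q.1.1, (hP q.1 q.2).1⟩) := (Prod.ext_iff.1 heq).2
    rw [decide_eq_decide] at e2
    have h4 := ha p h1
    have h5 := ha q h2
    rcases h3 with h3 | h3
    · have h6 : (⟨p.1.2, (hP p.1 p.2).2⟩ : W) = ⟨q.1.1, (hP q.1 q.2).1⟩ := Subtype.ext h3
      rw [h6] at h4
      rw [← e1] at e2
      tauto
    · have h6 : (⟨q.1.2, (hP q.1 q.2).2⟩ : W) = ⟨p.1.1, (hP p.1 p.2).1⟩ := Subtype.ext h3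
      rw [h6] at h5
      rw [e1] at e2
      tauto

/-- Compactness for `mu` implies compactness for `2 ^ mu`. -/
theorem compact_two_power {lam mu : Cardinal.{0}} (hlam : ℵ₀ ≤ lam) (hmu : ℵ₀ ≤ mu)
    (h : Compact lam mu) : Compact lam (2 ^ mu) := by
  intro V G hV hG
  apply lineG_to
  apply h (V × V) (lineG G)
  · rw [mk_prod, Cardinal.lift_id, hV, mul_eq_self hlam]
  · intro P hP
    apply lineG_of hmu (Prod.fst '' P ∪ Prod.snd '' P)
    · apply hG
      refine (mk_union_le _ _).trans_lt (add_lt_of_lt hlam ?_ ?_)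
      · exact mk_image_le.trans_lt hP
      · exact mk_image_le.trans_lt hP
    · intro p hp
      exact ⟨Or.inl ⟨p, hp, rfl⟩, Or.inr ⟨p, hp, rfl⟩⟩

end ChromComp
end

section

/-!
# MP_80affc_lc : types for a nonreflecting set

If the set `S` of limit ordinals does not reflect below `o` then for every `i < o` there is
`t : Ordinal → ℕ` such that every `δ ∈ S`, `δ < i`, has `g < δ` with `t ε ≠ t δ` for all
`ε ∈ S` between `g` and `δ`.
-/

set_option autoImplicit false

namespace ChromComp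

open Cardinal Ordinal Order Set

/-- closing off under a function -/
theorem exists_closed {o : Ordinal.{0}} (ho : ℵ₀ < o.cof) (F : Ordinal.{0} → Ordinal.{0})
    (hF : ∀ β < o, F β < o) (a : Ordinal.{0}) (ha : a < o) :
    ∃ δ < o, a < δ ∧ ∀ β < δ, ∃ γ, β ≤ γ ∧ γ < δ ∧ F γ < δ := by
  have hlim : IsSuccLimit o := one_lt_cof_iff.1 (one_lt_aleph0.trans ho)
  let g : ℕ → Ordinal.{0} := fun n => Nat.rec (a + 1) (fun _ IH => max IH (F IH) + 1) n
  have hgs : ∀ n, g (n + 1) = max (g n) (F (g n)) + 1 := fun n => rfl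
  have hgo : ∀ n, g n < o := by
    intro n
    induction n with
    | zero => exact hlim.succ_lt ha
    | succ n ih =>
      rw [hgs]
      exact hlim.succ_lt (max_lt ih (hF _ ih))
  have hb : BddAbove (Set.range g) := Ordinal.bddAbove_of_small
  refine ⟨⨆ n, g n, ?_, ?_, ?_⟩
  · apply Ordinal.iSup_lt_of_lt_cof
    · rw [mk_nat]
      exact ho
    · exact hgo
  · exact (lt_add_one a).trans_le (le_ciSup hb 0)
  · intro β hβ
    obtain ⟨n, hn⟩ := (lt_ciSup_iff hb).1 hβ
    have h1 : g n < g (n + 1) := by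
      rw [hgs]
      exact (le_max_left _ _).trans_lt (lt_add_one _)
    have h2 : F (g n) < g (n + 1) := by
      rw [hgs]
      exact (le_max_right _ _).trans_lt (lt_add_one _)
    exact ⟨g n, hn.le, h1.trans_le (le_ciSup hb (n + 1)), h2.trans_le (le_ciSup hb (n + 1))⟩

/-- the sequences or clubs avoiding `S` -/
private theorem exists_C {S : Set Ordinal.{0}} (hS : ∀ δ ∈ S, IsSuccLimit δ) {i : Ordinal.{0}}
    (hi : IsSuccLimit i) (hnr : ℵ₀ < i.cof → ¬ StatAt S i) :
    ∃ C : Set Ordinal.{0}, (∀ b ∈ C, b < i) ∧ (∀ a < i, ∃ b ∈ C, a < b) ∧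
      ∀ δ ∈ S, δ < i → ∃ g < δ, ∀ b ∈ C, b ≤ δ → b ≤ g := by
  have hcof : ℵ₀ ≤ i.cof := aleph0_le_cof_iff.2 (one_lt_cof_iff.2 hi)
  rcases hcof.eq_or_lt with h0 | h0
  · -- cofinality ω
    obtain ⟨f, hf⟩ := exists_isFundamentalSeq (o := i) (a := ω) (by rw [← h0, ord_aleph0])
    let a : ℕ → Ordinal.{0} := fun n => f ⟨n, natCast_lt_omega0 n⟩
    have hai : ∀ n, a n < i := fun n => (f ⟨n, natCast_lt_omega0 n⟩).2
    have hcf : ∀ b < i, ∃ n, b ≤ a n := by
      intro b hb
      obtain ⟨_, ⟨⟨c, hc⟩, rfl⟩, hbc⟩ := hf.isCofinal_range ⟨b, hb⟩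
      obtain ⟨n, rfl⟩ := lt_omega0.1 hc
      exact ⟨n, hbc⟩
    have hmono : StrictMono a := by
      intro m n hmn
      have : (⟨(m : Ordinal.{0}), natCast_lt_omega0 m⟩ : Iio (ω : Ordinal.{0})) <
          ⟨(n : Ordinal.{0}), natCast_lt_omega0 n⟩ := by
        show (m : Ordinal.{0}) < n
        exact_mod_cast hmn
      exact hf.strictMono this
    refine ⟨Set.range (fun n => a n + 1), ?_, ?_, ?_⟩
    · rintro _ ⟨n, rfl⟩
      exact hi.succ_lt (hai n)
    · intro b hb
      obtain ⟨n, hn⟩ := hcf b hb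
      exact ⟨a n + 1, ⟨n, rfl⟩, hn.trans_lt (lt_add_one _)⟩
    · intro δ hδ hδi
      obtain ⟨N, hN⟩ := hcf δ hδi
      have hlim := hS δ hδ
      have hne : ∀ n, a n + 1 ≤ δ → a n + 1 < δ := by
        intro n hn
        have h1 : a n < δ := (lt_add_one _).trans_le hn
        exact hlim.succ_lt h1
      have hfin : ({b | b ∈ Set.range (fun n => a n + 1) ∧ b ≤ δ} : Set Ordinal.{0}).Finite := by
        apply ((Set.finite_lt_nat N).image (fun n => a n + 1)).subset
        rintro _ ⟨⟨n, rfl⟩, hn⟩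
        refine ⟨n, ?_, rfl⟩
        by_contra hlt
        have h1 : N ≤ n := not_lt.1 hlt
        have h2 : δ ≤ a n := hN.trans (hmono.monotone h1)
        exact absurd ((lt_add_one (a n)).trans_le hn) (not_lt.2 h2)
      rcases Set.eq_empty_or_nonempty {b | b ∈ Set.range (fun n => a n + 1) ∧ b ≤ δ} with he | he
      · refine ⟨0, hlim.bot_lt, ?_⟩
        intro b hb hbδ
        have : b ∈ ({b | b ∈ Set.range (fun n => a n + 1) ∧ b ≤ δ} : Set Ordinal.{0}) := ⟨hb, hbδ⟩
        rw [he] at this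
        exact absurd this (Set.notMem_empty _)
      · obtain ⟨m, hm, hmax⟩ := Set.exists_max_image _ id hfin he
        obtain ⟨⟨n, rfl⟩, hn⟩ := hm
        exact ⟨a n + 1, hne n hn, fun b hb hbδ => hmax b ⟨hb, hbδ⟩⟩
  · -- uncountable cofinality
    have h1 := hnr h0
    unfold StatAt at h1
    rw [not_isStationary_iff] at h1
    obtain ⟨t, ht, hd⟩ := h1
    refine ⟨(fun x : Iio i => (x : Ordinal.{0})) '' t, ?_, ?_, ?_⟩
    · rintro _ ⟨x, -, rfl⟩
      exact x.2
    · intro a ha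
      obtain ⟨b, hb, hab⟩ := ht.isCofinal ⟨a + 1, hi.succ_lt ha⟩
      exact ⟨b, ⟨b, hb, rfl⟩, (lt_add_one a).trans_le hab⟩
    · intro δ hδ hδi
      by_contra hcon
      push Not at hcon
      have hδt : (⟨δ, hδi⟩ : Iio i) ∉ t := by
        intro h2
        exact Set.disjoint_left.1 hd (show (⟨δ, hδi⟩ : Iio i) ∈ {x : Iio i | (x : Ordinal) ∈ S}
          from hδ) h2
      apply hδt
      have hlim := hS δ hδ
      have hlt : ∀ x ∈ t, (x : Ordinal.{0}) ≤ δ → (x : Ordinal.{0}) < δ := by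
        intro x hx hxδ
        rcases hxδ.eq_or_lt with h2 | h2
        · exfalso
          apply hδt
          have : x = ⟨δ, hδi⟩ := Subtype.ext h2
          rw [← this]
          exact hx
        · exact h2
      apply ht.isLUB_mem (t := {x | x ∈ t ∧ (x : Ordinal.{0}) < δ}) (fun x hx => hx.1)
      · obtain ⟨_, ⟨x, hx, rfl⟩, hxδ, -⟩ := hcon 0 hlim.bot_lt
        exact ⟨x, hx, hlt x hx hxδ⟩
      · constructor
        · intro x hx
          exact hx.2.le
        · intro y hy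
          by_contra hlt'
          have h2 : (y : Ordinal.{0}) < δ := not_le.1 hlt'
          obtain ⟨_, ⟨x, hx, rfl⟩, hxδ, hyx⟩ := hcon y h2
          have h3 : x ≤ y := hy ⟨hx, hlt x hx hxδ⟩
          exact absurd hyx (not_lt.2 h3)

theorem exists_types {S : Set Ordinal.{0}} (hS : ∀ δ ∈ S, IsSuccLimit δ) {o : Ordinal.{0}}
    (hnr : ¬ Reflects S o) (i : Ordinal.{0}) (hi : i < o) :
    ∃ t : Ordinal.{0} → ℕ, ∀ δ ∈ S, δ < i → ∃ g < δ, ∀ ε ∈ S, g < ε → ε < δ → t ε ≠ t δ := by
  induction i using Ordinal.limitRecOn with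
  | zero => exact ⟨fun _ => 0, fun δ _ h => absurd h (not_lt.2 bot_le)⟩
  | add_one j ih =>
    classical
    obtain ⟨t, ht⟩ := ih ((lt_add_one j).trans hi)
    refine ⟨fun ε => if ε < j then t ε + 1 else 0, ?_⟩
    intro δ hδ hδj
    rcases (lt_add_one_iff.1 hδj).eq_or_lt with h1 | h1
    · subst h1
      refine ⟨0, (hS _ hδ).bot_lt, ?_⟩
      intro ε _ _ hε
      simp [hε]
    · obtain ⟨g, hg, hg'⟩ := ht δ hδ h1
      refine ⟨g, hg, ?_⟩
      intro ε hε hgε hεδ
      have h2 := hg' ε hε hgε hεδ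
      simp only [h1, hεδ.trans h1, if_true]
      omega
  | limit i hlim ih =>
    classical
    have hnr' : ℵ₀ < i.cof → ¬ StatAt S i := fun h1 h2 => hnr ⟨i, hi, h1, h2⟩
    obtain ⟨C, hC1, hC2, hC3⟩ := exists_C hS hlim hnr'
    have hT : ∀ j : Ordinal.{0}, ∃ t : Ordinal.{0} → ℕ, j < i →
        ∀ δ ∈ S, δ < j → ∃ g < δ, ∀ ε ∈ S, g < ε → ε < δ → t ε ≠ t δ := by
      intro j
      by_cases hj : j < i
      · obtain ⟨t, ht⟩ := ih j hj (hj.trans hi)
        exact ⟨t, fun _ => ht⟩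
      · exact ⟨fun _ => 0, fun h => absurd h hj⟩
    choose T hT using hT
    let c : Ordinal.{0} → Ordinal.{0} := fun ε => sInf {b | b ∈ C ∧ ε < b}
    have hc : ∀ ε < i, c ε ∈ C ∧ ε < c ε := by
      intro ε hε
      obtain ⟨b, hb, hεb⟩ := hC2 ε hε
      exact csInf_mem (s := {b | b ∈ C ∧ ε < b}) ⟨b, hb, hεb⟩
    refine ⟨fun ε => T (c ε) ε, ?_⟩
    intro δ hδ hδi
    obtain ⟨g1, hg1, hg1'⟩ := hC3 δ hδ hδi
    obtain ⟨hcδ, hcδ'⟩ := hc δ hδi
    obtain ⟨g2, hg2, hg2'⟩ := hT (c δ) (hC1 _ hcδ) δ hδ hcδ'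
    refine ⟨max g1 g2, max_lt hg1 hg2, ?_⟩
    intro ε hε hgε hεδ
    have h1 : c ε = c δ := by
      have h2 : {b | b ∈ C ∧ ε < b} = {b | b ∈ C ∧ δ < b} := by
        ext b
        constructor
        · rintro ⟨hb, hεb⟩
          refine ⟨hb, ?_⟩
          by_contra hlt
          have h3 := hg1' b hb (not_lt.1 hlt)
          exact absurd (hεb.trans_le h3) (not_lt.2 ((le_max_left _ _).trans hgε.le))
        · rintro ⟨hb, hδb⟩
          exact ⟨hb, hεδ.trans hδb⟩
      show sInf _ = sInf _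
      rw [h2]
    simp only [h1]
    exact hg2' ε hε ((le_max_right _ _).trans_lt hgε) hεδ

end ChromComp
end

section

/-!
# MP_80affc_lc : the graph of a nonreflecting stationary set

The vertices are well-founded trees: a vertex is a leaf or consists of a level (an ordinal below
`lam.ord`) and a list of `kap` vertices.  A good vertex has a level `δ ∈ S`, and the levels of its
list are smaller than `δ` and converge to `δ`.  A good vertex is adjacent to the members of its
list.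
-/

set_option autoImplicit false

namespace ChromComp

open Cardinal Ordinal Order Set

/-- arities -/
def Bt (lam kap : Cardinal.{0}) : Option lam.ord.ToType → Type
  | none => PEmpty
  | some _ => kap.ord.ToType

/-- vertices -/
abbrev Vt (lam kap : Cardinal.{0}) : Type := WType (Bt lam kap)

variable {lam kap : Cardinal.{0}}

/-- the level of an index -/
noncomputable def levA : Option lam.ord.ToType → Ordinal.{0}
  | none => 0
  | some a => (ToType.toOrd a : Ordinal.{0})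

/-- the level of a vertex -/
noncomputable def lev : Vt lam kap → Ordinal.{0}
  | WType.mk a _ => levA a

/-- `y` is in the list of the vertex -/
def Chd (y : Vt lam kap) : Vt lam kap → Prop
  | WType.mk _ L => ∃ b, L b = y

/-- good vertices -/
def Good (S : Set Ordinal.{0}) : Vt lam kap → Prop
  | WType.mk a L => a ≠ none ∧ levA a ∈ S ∧ (∀ b, lev (L b) < levA a) ∧
      ∀ β < levA a, #{b | lev (L b) ≤ β} < kap

theorem Good.lt {S : Set Ordinal.{0}} {x y : Vt lam kap} (h : Good S x) (hc : Chd y x) :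
    lev y < lev x := by
  obtain ⟨a, L⟩ := x
  obtain ⟨b, rfl⟩ := hc
  exact h.2.2.1 b

/-- the graph -/
def GG (S : Set Ordinal.{0}) : SimpleGraph (Vt lam kap) where
  Adj x y := (Good S x ∧ Chd y x) ∨ (Good S y ∧ Chd x y)
  symm := ⟨fun _ _ h => h.symm⟩
  loopless := ⟨fun _ h => by
    rcases h with h | h
    · exact lt_irrefl _ (h.1.lt h.2)
    · exact lt_irrefl _ (h.1.lt h.2)⟩

/-- the leaf -/
def leaf : Vt lam kap := WType.mk none (fun b => PEmpty.elim b)

/-- a vertex of a given level -/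
noncomputable def atLev (a : lam.ord.ToType) : Vt lam kap := WType.mk (some a) (fun _ => leaf)

theorem lev_atLev (a : lam.ord.ToType) :
    lev (atLev a : Vt lam kap) = (ToType.toOrd a : Ordinal.{0}) := rfl

theorem levA_lt (hlam : ℵ₀ ≤ lam) (a : Option lam.ord.ToType) : levA a < lam.ord := by
  cases a with
  | none =>
    show (0 : Ordinal.{0}) < lam.ord
    rw [ord_pos]
    exact aleph0_pos.trans_le hlam
  | some a => exact (ToType.toOrd a).2

theorem lev_lt (hlam : ℵ₀ ≤ lam) (x : Vt lam kap) : lev x < lam.ord := by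
  obtain ⟨a, L⟩ := x
  exact levA_lt hlam a

theorem mk_Bt_some (a : lam.ord.ToType) : #(Bt lam kap (some a)) = kap := mk_ord_toType kap

theorem mk_Vt (hlam : ℵ₀ ≤ lam) (hpow : lam ^ kap = lam) : #(Vt lam kap) = lam := by
  apply le_antisymm
  · apply WType.cardinalMk_le_of_le
    have h1 : ∀ a : Option lam.ord.ToType, lam ^ #(Bt lam kap a) ≤ lam := by
      intro a
      cases a with
      | none =>
        have : #(Bt lam kap none) = 0 := mk_eq_zero PEmpty
        rw [this, power_zero]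
        exact one_le_aleph0.trans hlam
      | some a => rw [mk_Bt_some, hpow]
    refine (Cardinal.sum_le_sum _ _ h1).trans ?_
    rw [Cardinal.sum_const']
    have h2 : #(Option lam.ord.ToType) = lam := by
      rw [mk_option, mk_ord_toType]
      exact add_one_eq hlam
    rw [h2, mul_eq_self hlam]
  · have h3 : Function.Injective (atLev : lam.ord.ToType → Vt lam kap) := by
      intro a b hab
      have h4 := congrArg lev hab
      rw [lev_atLev, lev_atLev] at h4
      exact ToType.mk.symm.injective (Subtype.ext h4)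
    have h5 := mk_le_of_injective h3
    rwa [mk_ord_toType] at h5

/-! ### The chromatic number is large -/

theorem exists_level (x : Ordinal.{0}) (hx : x < lam.ord) :
    ∃ a : lam.ord.ToType, levA (some a) = x := by
  refine ⟨ToType.mk ⟨x, hx⟩, ?_⟩
  show ((ToType.toOrd (ToType.mk ⟨x, hx⟩) : Iio lam.ord) : Ordinal.{0}) = x
  simp [ToType.toOrd]

/-- lists converging to `x` -/
theorem exists_conv {x : Ordinal.{0}} (hk : ℵ₀ ≤ kap) (hx : x.cof = kap) :
    ∃ d : kap.ord.ToType → Ordinal.{0}, (∀ γ, d γ < x) ∧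
      ∀ β < x, #{γ : kap.ord.ToType | d γ ≤ β} < kap := by
  obtain ⟨f, hf⟩ := exists_isFundamentalSeq (o := x) (a := kap.ord) (by rw [hx])
  have hlim : IsSuccLimit x := by
    rw [← one_lt_cof_iff, hx]
    exact one_lt_aleph0.trans_le hk
  refine ⟨fun γ => f (ToType.toOrd γ), fun γ => (f (ToType.toOrd γ)).2, ?_⟩
  intro β hβ
  obtain ⟨_, ⟨c, rfl⟩, hbc⟩ := hf.isCofinal_range ⟨β + 1, hlim.succ_lt hβ⟩
  have hbc' : β + 1 ≤ (f c : Ordinal.{0}) := hbc
  refine (mk_le_mk_of_subset ?_).trans_lt (mk_Iio_toType_ord_lt (ToType.mk c))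
  intro γ hγ
  have hγ' : (f (ToType.toOrd γ) : Ordinal.{0}) ≤ β := hγ
  have h1 : f (ToType.toOrd γ) < f c := by
    show (f (ToType.toOrd γ) : Ordinal.{0}) < f c
    exact (hγ'.trans_lt (lt_add_one β)).trans_le hbc'
  have h2 : ToType.toOrd γ < c := hf.strictMono.lt_iff_lt.1 h1
  show γ < ToType.mk c
  have h3 : ToType.mk (ToType.toOrd γ) < ToType.mk c := ToType.mk.lt_iff_lt.2 h2
  simpa [ToType.toOrd] using h3

theorem not_chrom {S : Set Ordinal.{0}} (hlam : lam.IsRegular) (hk : ℵ₀ ≤ kap) (hlt : kap < lam)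
    (hS : ∀ δ ∈ S, δ < lam.ord → δ.cof = kap) (hst : StatAt S lam.ord) :
    ¬ ChromLE (GG S : SimpleGraph (Vt lam kap)) kap := by
  classical
  rintro ⟨C, hC, ⟨c⟩⟩
  have hcof : lam.ord.cof = lam := hlam.cof_ord
  have hal : ℵ₀ ≤ lam := hlam.aleph0_le
  have hCl : #C < lam.ord.cof := by
    rw [hcof]
    exact hC.trans_lt hlt
  have hlim : IsSuccLimit lam.ord := isSuccLimit_ord hal
  -- cofinal colours
  let cofin : C → Prop := fun k => ∀ β < lam.ord, ∃ x : Vt lam kap, c x = k ∧ β < lev x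
  have hb : ∀ k : C, ∃ b < lam.ord, ¬ cofin k → ∀ x : Vt lam kap, c x = k → lev x ≤ b := by
    intro k
    by_cases h : cofin k
    · exact ⟨0, hlim.bot_lt, fun h' => absurd h h'⟩
    · have h' := h
      simp only [cofin] at h'
      push Not at h'
      obtain ⟨b, hb, hb'⟩ := h'
      exact ⟨b, hb, fun _ => hb'⟩
  choose b hb hb' using hb
  have hbd : BddAbove (Set.range b) := Ordinal.bddAbove_of_small
  have hβ0 : (⨆ k, b k) < lam.ord := Ordinal.iSup_lt_of_lt_cof hCl hb
  -- representatives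
  have hX : ∀ (k : C) (β : Ordinal.{0}), ∃ x : Vt lam kap, cofin k → β < lam.ord →
      c x = k ∧ β < lev x := by
    intro k β
    by_cases h : cofin k ∧ β < lam.ord
    · obtain ⟨x, hx⟩ := h.1 β h.2
      exact ⟨x, fun _ _ => hx⟩
    · exact ⟨leaf, fun h1 h2 => absurd ⟨h1, h2⟩ h⟩
  choose X hX using hX
  have hFb : ∀ β, BddAbove (Set.range (fun k => lev (X k β))) := fun _ => Ordinal.bddAbove_of_small
  have hF : ∀ β < lam.ord, (⨆ k, lev (X k β)) < lam.ord := fun β _ =>
    Ordinal.iSup_lt_of_lt_cof hCl (fun k => lev_lt hal _)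
  have hco : ℵ₀ < lam.ord.cof := by
    rw [hcof]
    exact hk.trans_lt hlt
  -- the club
  have hclub : IsClub {x : Iio lam.ord | (⨆ k, b k) < x ∧ ∀ β < (x : Ordinal.{0}), ∀ k, cofin k →
      ∃ v : Vt lam kap, c v = k ∧ β < lev v ∧ lev v < x} := by
    constructor
    · intro d hd hne _ a ha
      constructor
      · obtain ⟨y, hy⟩ := hne
        exact (hd hy).1.trans_le (ha.1 hy)
      · intro β hβ k hk'
        have hβl : β < lam.ord := hβ.trans a.2
        have h1 : ∃ y ∈ d, (⟨β, hβl⟩ : Iio lam.ord) < y := by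
          by_contra hcon
          push Not at hcon
          have h2 : a ≤ ⟨β, hβl⟩ := ha.2 (fun y hy => hcon y hy)
          exact absurd hβ (not_lt.2 h2)
        obtain ⟨y, hy, hβy⟩ := h1
        obtain ⟨v, hv1, hv2, hv3⟩ := (hd hy).2 β hβy k hk'
        exact ⟨v, hv1, hv2, hv3.trans_le (ha.1 hy)⟩
    · intro a
      obtain ⟨δ, hδ, haδ, hcl⟩ := exists_closed hco (fun β => ⨆ k, lev (X k β)) hF
        (max a (⨆ k, b k)) (max_lt a.2 hβ0)
      refine ⟨⟨δ, hδ⟩, ⟨(le_max_right _ _).trans_lt haδ, ?_⟩, ?_⟩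
      · intro β hβ k hk'
        obtain ⟨γ, hβγ, hγδ, hFγ⟩ := hcl β hβ
        obtain ⟨h1, h2⟩ := hX k γ hk' (hγδ.trans hδ)
        exact ⟨X k γ, h1, hβγ.trans_lt h2, (le_ciSup (hFb γ) k).trans_lt hFγ⟩
      · show (a : Ordinal.{0}) ≤ δ
        exact (le_max_left _ _).trans haδ.le
  obtain ⟨x, hxS, hx0, hx⟩ := hst hclub
  have hxS' : (x : Ordinal.{0}) ∈ S := hxS
  have hxcof : (x : Ordinal.{0}).cof = kap := hS _ hxS' x.2
  -- there is a cofinal colour
  have hI : Nonempty {k // cofin k} := by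
    by_contra hcon
    have hcon' : ∀ k, ¬ cofin k := fun k hk' => hcon ⟨⟨k, hk'⟩⟩
    obtain ⟨a, ha⟩ := exists_level (lam := lam) _ (hlim.succ_lt hβ0)
    have h1 := hb' (c (atLev a)) (hcon' _) (atLev a) rfl
    have h2 : lev (atLev a : Vt lam kap) = succ (⨆ k, b k) := ha
    rw [h2] at h1
    exact absurd (lt_succ (⨆ k, b k)) (not_lt.2 (h1.trans (le_ciSup hbd _)))
  have hIK : #{k // cofin k} ≤ #(kap.ord.ToType) := by
    rw [mk_ord_toType]
    exact (mk_subtype_le _).trans hC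
  obtain ⟨⟨e, he⟩⟩ := hIK
  have hsurj : Function.Surjective (Function.invFun e) := Function.invFun_surjective he
  obtain ⟨d, hd1, hd2⟩ := exists_conv (kap := kap) hk hxcof
  have hL : ∀ γ : kap.ord.ToType, ∃ v : Vt lam kap, c v = (Function.invFun e γ).1 ∧ d γ < lev v ∧
      lev v < x := fun γ => hx (d γ) (hd1 γ) _ (Function.invFun e γ).2
  choose L hL1 hL2 hL3 using hL
  obtain ⟨a, ha⟩ := exists_level (x : Ordinal.{0}) x.2
  have hgood : Good S (WType.mk (some a) L : Vt lam kap) := by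
    refine ⟨by simp, ?_, ?_, ?_⟩
    · rw [ha]
      exact hxS'
    · intro γ
      rw [ha]
      exact hL3 γ
    · intro β hβ
      rw [ha] at hβ
      refine (mk_le_mk_of_subset ?_).trans_lt (hd2 β hβ)
      intro γ hγ
      exact (hL2 γ).le.trans hγ
  have hcof' : cofin (c (WType.mk (some a) L)) := by
    by_contra hcon
    have h1 := hb' _ hcon (WType.mk (some a) L) rfl
    have h2 : lev (WType.mk (some a) L : Vt lam kap) = x := ha
    rw [h2] at h1
    exact absurd hx0 (not_lt.2 (h1.trans (le_ciSup hbd _)))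
  obtain ⟨γ, hγ⟩ := hsurj ⟨_, hcof'⟩
  have hadj : (GG S : SimpleGraph (Vt lam kap)).Adj (WType.mk (some a) L) (L γ) :=
    Or.inl ⟨hgood, γ, rfl⟩
  apply c.valid hadj
  rw [hL1 γ, hγ]

/-! ### Small subgraphs -/

open Classical in
/-- choice of a colour avoiding the given ones -/
noncomputable def pick {K B : Type} (k₀ : K) (P : B → Prop) (f : B → K) : K :=
  if h : ∃ k, ∀ b, P b → f b ≠ k then h.choose else k₀

theorem pick_spec {K B : Type} (k₀ : K) (P : B → Prop) (f : B → K) (h : #{b | P b} < #K) (b : B)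
    (hb : P b) : f b ≠ pick k₀ P f := by
  have hex : ∃ k, ∀ b, P b → f b ≠ k := by
    by_contra hcon
    push Not at hcon
    have h1 : (Set.univ : Set K) ⊆ f '' {b | P b} := by
      intro k _
      obtain ⟨b, hb, hbk⟩ := hcon k
      exact ⟨b, hb, hbk⟩
    have h2 := (mk_le_mk_of_subset h1).trans mk_image_le
    rw [mk_univ] at h2
    exact absurd h (not_lt.2 h2)
  unfold pick
  rw [dif_pos hex]
  exact hex.choose_spec b hb

/-- the second coordinate of the colouring -/
noncomputable def vcol (k₀ : kap.ord.ToType) (g : Ordinal.{0} → Ordinal.{0}) :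
    Vt lam kap → kap.ord.ToType
  | WType.mk a L => pick k₀ (fun b => lev (L b) ≤ g (levA a)) (fun b => vcol k₀ g (L b))

theorem vcol_spec (k₀ : kap.ord.ToType) (g : Ordinal.{0} → Ordinal.{0}) {S : Set Ordinal.{0}}
    {x y : Vt lam kap} (hx : Good S x) (hg : g (lev x) < lev x) (hc : Chd y x)
    (hy : lev y ≤ g (lev x)) : vcol k₀ g y ≠ vcol k₀ g x := by
  obtain ⟨a, L⟩ := x
  obtain ⟨b, rfl⟩ := hc
  have h1 : vcol k₀ g (WType.mk a L : Vt lam kap) =
      pick k₀ (fun b => lev (L b) ≤ g (levA a)) (fun b => vcol k₀ g (L b)) := by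
    rw [vcol]
  rw [h1]
  apply pick_spec k₀ (fun b => lev (L b) ≤ g (levA a)) (fun b => vcol k₀ g (L b))
  · rw [mk_ord_toType]
    exact hx.2.2.2 _ hg
  · exact hy

theorem small_chrom {S : Set Ordinal.{0}} (hk : ℵ₀ ≤ kap) {i : Ordinal.{0}} {t : Ordinal.{0} → ℕ}
    (ht : ∀ δ ∈ S, δ < i → ∃ g < δ, ∀ ε ∈ S, g < ε → ε < δ → t ε ≠ t δ)
    (W : Set (Vt lam kap)) (hW : ∀ x ∈ W, lev x < i) :
    ChromLE ((GG S : SimpleGraph (Vt lam kap)).induce W) kap := by
  classical
  have hg : ∀ δ, ∃ g : Ordinal.{0}, δ ∈ S → δ < i → g < δ ∧ ∀ ε ∈ S, g < ε → ε < δ → t ε ≠ t δ := by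
    intro δ
    by_cases h : δ ∈ S ∧ δ < i
    · obtain ⟨g, hg⟩ := ht δ h.1 h.2
      exact ⟨g, fun _ _ => hg⟩
    · exact ⟨0, fun h1 h2 => absurd ⟨h1, h2⟩ h⟩
  choose g hg using hg
  have hne : Nonempty kap.ord.ToType := by
    rw [← mk_ne_zero_iff, mk_ord_toType]
    exact (aleph0_pos.trans_le hk).ne'
  have hlevS : ∀ x : Vt lam kap, Good S x → lev x ∈ S := by
    rintro ⟨a, L⟩ h
    exact h.2.1
  have key : ∀ x y : Vt lam kap, Good S x → Chd y x → lev x < i →
      ((if Good S x then some (t (lev x)) else none : Option ℕ), vcol hne.some g x) ≠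
      ((if Good S y then some (t (lev y)) else none : Option ℕ), vcol hne.some g y) := by
    intro x y hx hc hxi heq
    rw [Prod.mk.injEq] at heq
    obtain ⟨h1, h2⟩ := heq
    rw [if_pos hx] at h1
    obtain ⟨h3, h4⟩ := hg (lev x) (hlevS x hx) hxi
    by_cases hy : Good S y
    · rw [if_pos hy] at h1
      by_cases h5 : lev y ≤ g (lev x)
      · exact vcol_spec hne.some g hx h3 hc h5 h2.symm
      · exact h4 (lev y) (hlevS y hy) (not_le.1 h5) (hx.lt hc) (Option.some.inj h1).symm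
    · rw [if_neg hy] at h1
      exact absurd h1 (by simp)
  refine ⟨Option ℕ × kap.ord.ToType, ?_, ⟨SimpleGraph.Coloring.mk
    (fun x => ((if Good S x.1 then some (t (lev x.1)) else none : Option ℕ),
      vcol hne.some g x.1)) ?_⟩⟩
  · rw [mk_prod, Cardinal.lift_id, Cardinal.lift_id, mk_ord_toType]
    have h1 : #(Option ℕ) ≤ ℵ₀ := mk_le_aleph0
    exact (mul_le_mul' h1 le_rfl).trans (aleph0_mul_eq hk).le
  · intro x y hxy
    have hxy' : (GG S : SimpleGraph (Vt lam kap)).Adj x.1 y.1 := hxy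
    rcases hxy' with h | h
    · exact key x.1 y.1 h.1 h.2 (hW _ x.2)
    · exact (key y.1 x.1 h.1 h.2 (hW _ y.2)).symm

/-- Compactness for chromatic number at most `kap` implies reflection of the stationary sets of
points of cofinality `kap`. -/
theorem reflect_of_compact (hlam : lam.IsRegular) (hk : ℵ₀ ≤ kap) (hlt : kap < lam)
    (hpow : lam ^ kap = lam) (h : Compact lam kap) {S : Set Ordinal.{0}}
    (hS : ∀ δ ∈ S, δ.cof = kap) (hst : StatAt S lam.ord) : Reflects S lam.ord := by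
  by_contra hnr
  have hal : ℵ₀ ≤ lam := hlam.aleph0_le
  have hSl : ∀ δ ∈ S, IsSuccLimit δ := by
    intro δ hδ
    rw [← one_lt_cof_iff, hS δ hδ]
    exact one_lt_aleph0.trans_le hk
  apply not_chrom hlam hk hlt (fun δ hδ _ => hS δ hδ) hst
  apply h (Vt lam kap) (GG S) (mk_Vt hal hpow)
  intro W hW
  have hWc : #W < lam.ord.cof := by
    rw [hlam.cof_ord]
    exact hW
  have hlim : IsSuccLimit lam.ord := isSuccLimit_ord hal
  have h1 : (⨆ x : W, (lev x.1 + 1)) < lam.ord :=
    Ordinal.iSup_lt_of_lt_cof hWc (fun x => hlim.succ_lt (lev_lt hal x.1))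
  obtain ⟨t, ht⟩ := exists_types hSl hnr _ h1
  apply small_chrom hk ht W
  intro x hx
  have hb : BddAbove (Set.range (fun x : W => (lev x.1 + 1))) := Ordinal.bddAbove_of_small
  exact (lt_add_one _).trans_le (le_ciSup hb ⟨x, hx⟩)

end ChromComp
end

section

/-!
# MP_80affc_lc : reflection from compactness, without a hypothesis on cardinal powers

The stationary sets of points of cofinality `kap` reflect if compactness for chromatic number at
most `kap` holds, the subsets of `lam` of size `kap` have a cofinal family of size `lam`, and there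
is an unbounded family of at most `lam` functions from `kap` to `kap`.
-/

set_option autoImplicit false

namespace ChromComp

open Cardinal Ordinal Order Set

variable {lam kap : Cardinal.{0}}

/-- If a stationary set is covered by fewer than `lam` sets, one of them is cofinal in one of its
members which lies in the stationary set. -/
theorem exists_pigeon {S : Set Ordinal.{0}} (hlam : lam.IsRegular) (hunc : ℵ₀ < lam) {C : Type}
    (hC : #C < lam) (D : C → Set Ordinal.{0}) (hst : StatAt S lam.ord)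
    (hcover : ∀ δ ∈ S, δ < lam.ord → ∃ k, δ ∈ D k) :
    ∃ k, ∃ δ ∈ S, δ < lam.ord ∧ δ ∈ D k ∧ ∀ β < δ, ∃ γ ∈ D k, β < γ ∧ γ < δ := by
  classical
  have hcof : lam.ord.cof = lam := hlam.cof_ord
  have hal : ℵ₀ ≤ lam := hlam.aleph0_le
  have hCl : #C < lam.ord.cof := by
    rw [hcof]
    exact hC
  have hlim : IsSuccLimit lam.ord := isSuccLimit_ord hal
  -- cofinal colours
  let cofin : C → Prop := fun k => ∀ β < lam.ord, ∃ γ ∈ D k, β < γ ∧ γ < lam.ord
  have hb : ∀ k : C, ∃ b < lam.ord, ¬ cofin k → ∀ γ ∈ D k, γ < lam.ord → γ ≤ b := by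
    intro k
    by_cases h : cofin k
    · exact ⟨0, hlim.bot_lt, fun h' => absurd h h'⟩
    · have h' := h
      simp only [cofin] at h'
      push Not at h'
      obtain ⟨b, hb, hb'⟩ := h'
      refine ⟨b, hb, fun _ γ hγ hγl => ?_⟩
      by_contra hlt
      exact absurd hγl (not_lt.2 (hb' γ hγ (not_le.1 hlt)))
  choose b hb hb' using hb
  have hbd : BddAbove (Set.range b) := Ordinal.bddAbove_of_small
  have hβ0 : (⨆ k, b k) < lam.ord := Ordinal.iSup_lt_of_lt_cof hCl hb
  -- representatives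
  have hX : ∀ (k : C) (β : Ordinal.{0}), ∃ γ < lam.ord, cofin k → β < lam.ord →
      γ ∈ D k ∧ β < γ := by
    intro k β
    by_cases h : cofin k ∧ β < lam.ord
    · obtain ⟨γ, hγ, h1, h2⟩ := h.1 β h.2
      exact ⟨γ, h2, fun _ _ => ⟨hγ, h1⟩⟩
    · exact ⟨0, hlim.bot_lt, fun h1 h2 => absurd ⟨h1, h2⟩ h⟩
  choose X hX1 hX using hX
  have hFb : ∀ β, BddAbove (Set.range (fun k => X k β)) := fun _ => Ordinal.bddAbove_of_small
  have hF : ∀ β < lam.ord, (⨆ k, X k β) < lam.ord := fun β _ =>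
    Ordinal.iSup_lt_of_lt_cof hCl (fun k => hX1 _ _)
  have hco : ℵ₀ < lam.ord.cof := by
    rw [hcof]
    exact hunc
  -- the club
  have hclub : IsClub {x : Iio lam.ord | (⨆ k, b k) < x ∧ ∀ β < (x : Ordinal.{0}), ∀ k, cofin k →
      ∃ γ ∈ D k, β < γ ∧ γ < x} := by
    constructor
    · intro d hd hne _ a ha
      constructor
      · obtain ⟨y, hy⟩ := hne
        exact (hd hy).1.trans_le (ha.1 hy)
      · intro β hβ k hk'
        have hβl : β < lam.ord := hβ.trans a.2
        have h1 : ∃ y ∈ d, (⟨β, hβl⟩ : Iio lam.ord) < y := by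
          by_contra hcon
          push Not at hcon
          have h2 : a ≤ ⟨β, hβl⟩ := ha.2 (fun y hy => hcon y hy)
          exact absurd hβ (not_lt.2 h2)
        obtain ⟨y, hy, hβy⟩ := h1
        obtain ⟨v, hv1, hv2, hv3⟩ := (hd hy).2 β hβy k hk'
        exact ⟨v, hv1, hv2, hv3.trans_le (ha.1 hy)⟩
    · intro a
      obtain ⟨δ, hδ, haδ, hcl⟩ := exists_closed hco (fun β => ⨆ k, X k β) hF
        (max a (⨆ k, b k)) (max_lt a.2 hβ0)
      refine ⟨⟨δ, hδ⟩, ⟨(le_max_right _ _).trans_lt haδ, ?_⟩, ?_⟩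
      · intro β hβ k hk'
        obtain ⟨γ, hβγ, hγδ, hFγ⟩ := hcl β hβ
        obtain ⟨h1, h2⟩ := hX k γ hk' (hγδ.trans hδ)
        exact ⟨X k γ, h1, hβγ.trans_lt h2, (le_ciSup (hFb γ) k).trans_lt hFγ⟩
      · show (a : Ordinal.{0}) ≤ δ
        exact (le_max_left _ _).trans haδ.le
  obtain ⟨x, hxS, hx0, hx⟩ := hst hclub
  obtain ⟨k, hk⟩ := hcover x hxS x.2
  refine ⟨k, x, hxS, x.2, hk, ?_⟩
  intro β hβ
  apply hx β hβ k
  by_contra hcon
  exact absurd hx0 (not_lt.2 ((hb' k hcon x hk x.2).trans (le_ciSup hbd k)))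

/-- cofinal sequences -/
theorem exists_seq {x : Ordinal.{0}} (hk : ℵ₀ ≤ kap) (hx : x.cof = kap) :
    ∃ d : kap.ord.ToType → Ordinal.{0}, Monotone d ∧ (∀ γ, d γ < x) ∧ ∀ β < x, ∃ γ, β < d γ := by
  obtain ⟨f, hf⟩ := exists_isFundamentalSeq (o := x) (a := kap.ord) (by rw [hx])
  have hlim : IsSuccLimit x := by
    rw [← one_lt_cof_iff, hx]
    exact one_lt_aleph0.trans_le hk
  refine ⟨fun γ => f (ToType.toOrd γ), ?_, fun γ => (f (ToType.toOrd γ)).2, ?_⟩
  · intro a b hab
    have h1 : ToType.toOrd a ≤ ToType.toOrd b := by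
      simpa [ToType.toOrd] using hab
    exact hf.strictMono.monotone h1
  · intro β hβ
    obtain ⟨_, ⟨c, rfl⟩, hbc⟩ := hf.isCofinal_range ⟨β + 1, hlim.succ_lt hβ⟩
    have hbc' : β + 1 ≤ (f c : Ordinal.{0}) := hbc
    refine ⟨ToType.mk c, (lt_add_one β).trans_le ?_⟩
    have h2 : ToType.toOrd (ToType.mk c) = c := by simp [ToType.toOrd]
    show β + 1 ≤ (f (ToType.toOrd (ToType.mk c)) : Ordinal.{0})
    rw [h2]
    exact hbc'

end ChromComp
end

section

/-!
# MP_80affc_lc : joint compactness up to `κ⁺`, and reflection of stationary sets, in ZFC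

The complete graph on `κ⁺` is the union of an increasing sequence, of length `κ`, of graphs of
chromatic number at most `κ`.  With its help a decreasing sequence of graphs, of length `κ`, is
encoded by one graph of the same size.
-/

set_option autoImplicit false

namespace ChromComp

open Cardinal Ordinal Order Set

variable {lam kap : Cardinal.{0}}

theorem mk_Iic_lt' (hk : ℵ₀ ≤ kap) (k : kap.ord.ToType) : #(Set.Iic k) < kap := by
  have h1 : (Set.Iic k) ⊆ insert k (Set.Iio k) := by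
    intro x hx
    rcases (show x ≤ k from hx).eq_or_lt with h | h
    · exact Or.inl h
    · exact Or.inr h
  refine (mk_le_mk_of_subset h1).trans_lt (mk_insert_le.trans_lt ?_)
  exact add_lt_of_lt hk (mk_Iio_toType_ord_lt k) (one_lt_aleph0.trans_le hk)

/-- the layers -/
theorem exists_layers (hk : ℵ₀ ≤ kap) :
    ∃ (Q : Type) (dd : Q → Q → kap.ord.ToType) (χ : kap.ord.ToType → Q → kap.ord.ToType),
      #Q = succ kap ∧ (∀ α β, dd α β = dd β α) ∧
        ∀ m α β, α ≠ β → dd α β ≤ m → χ m α ≠ χ m β := by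
  classical
  have hKne : Nonempty kap.ord.ToType := by
    rw [← mk_ne_zero_iff, mk_ord_toType]
    exact (aleph0_pos.trans_le hk).ne'
  have he : ∀ β : (succ kap).ord.ToType, ∃ e : (succ kap).ord.ToType → kap.ord.ToType,
      Set.InjOn e (Set.Iio β) := by
    intro β
    have h1 : #(Set.Iio β) ≤ #(kap.ord.ToType) := by
      rw [mk_ord_toType]
      exact Order.lt_succ_iff.1 (mk_Iio_toType_ord_lt β)
    obtain ⟨⟨j, hj⟩⟩ := h1
    refine ⟨fun α => if h : α < β then j ⟨α, h⟩ else hKne.some, ?_⟩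
    intro a ha b hb hab
    have ha' : a < β := ha
    have hb' : b < β := hb
    simp only [dif_pos ha', dif_pos hb'] at hab
    exact congrArg Subtype.val (hj hab)
  choose e he using he
  let dd : (succ kap).ord.ToType → (succ kap).ord.ToType → kap.ord.ToType := fun α β =>
    e (max α β) (min α β)
  have hsm : ∀ m β, #{y : {y : (succ kap).ord.ToType // y < β} | dd y.1 β ≤ m} <
      #(kap.ord.ToType) := by
    intro m β
    rw [mk_ord_toType]
    refine lt_of_le_of_lt ?_ (mk_Iic_lt' hk m)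
    have h1 : ∀ y ∈ {y : {y : (succ kap).ord.ToType // y < β} | dd y.1 β ≤ m},
        e β y.1 ∈ Set.Iic m := by
      intro y hy
      have h2 : dd y.1 β ≤ m := hy
      simp only [dd, max_eq_right y.2.le, min_eq_left y.2.le] at h2
      exact h2
    refine Cardinal.mk_le_of_injective (f := fun y => ⟨e β y.1, h1 y.1 y.2⟩) ?_
    intro y z hyz
    have h3 : e β y.1 = e β z.1 := congrArg Subtype.val hyz
    exact Subtype.ext (Subtype.ext (he β y.1.2 z.1.2 h3))
  have hwf : WellFounded (fun y x : (succ kap).ord.ToType => y < x) := wellFounded_lt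
  let χ : kap.ord.ToType → (succ kap).ord.ToType → kap.ord.ToType := fun m => hwf.fix
    (fun x ih => (exists_pick (fun y : {y : (succ kap).ord.ToType // y < x} => dd y.1 x ≤ m)
      (fun y => ih y.1 y.2) (hsm m x)).choose)
  have hχ : ∀ m x y, y < x → dd y x ≤ m → χ m y ≠ χ m x := by
    intro m x y h1 h2
    have h3 : χ m x = _ := hwf.fix_eq _ x
    rw [h3]
    exact (exists_pick (fun y : {y : (succ kap).ord.ToType // y < x} => dd y.1 x ≤ m)
      (fun y => χ m y.1) (hsm m x)).choose_spec ⟨y, h1⟩ h2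
  refine ⟨(succ kap).ord.ToType, dd, χ, mk_ord_toType _, ?_, ?_⟩
  · intro α β
    simp only [dd, max_comm α β, min_comm α β]
  · intro m α β hne hle
    rcases lt_or_gt_of_ne hne with h | h
    · exact hχ m β α h hle
    · have hle' : dd β α ≤ m := by
        have h1 : dd β α = dd α β := by simp only [dd, max_comm α β, min_comm α β]
        rw [h1]
        exact hle
      exact (hχ m α β h hle').symm

/-- `W` is the union of at most `κ` sets, each independent in one of the graphs `G m`. -/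
def SplitsK {V K : Type} (G : K → SimpleGraph V) (κ : Cardinal.{0}) (W : Set V) : Prop :=
  ∃ (I : Type) (c : V → I) (m : I → K), #I ≤ κ ∧
    ∀ x ∈ W, ∀ y ∈ W, c x = c y → ¬ (G (m (c x))).Adj x y

/-- Joint compactness up to `κ⁺`. -/
theorem joint_succ (hk : ℵ₀ ≤ kap) (hlam : succ kap ≤ lam) (h : Compact lam kap) (V : Type)
    (hV : #V = lam) (G : kap.ord.ToType → SimpleGraph V) (hG : Antitone G)
    (hsmall : ∀ W : Set V, #W < lam → SplitsK G kap W) : SplitsK G (succ kap) Set.univ := by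
  classical
  obtain ⟨Q, dd, χ, hQ, hdd, hχ⟩ := exists_layers hk
  let T : SimpleGraph (V × Q) :=
    { Adj := fun a b => a.2 ≠ b.2 ∧ (G (dd a.2 b.2)).Adj a.1 b.1
      symm := ⟨fun a b h => ⟨h.1.symm, by
        rw [hdd]
        exact h.2.symm⟩⟩
      loopless := ⟨fun _ h => h.1 rfl⟩ }
  have hT : ChromLE T kap := by
    apply h (V × Q) T
    · rw [mk_prod, Cardinal.lift_id, Cardinal.lift_id, hV, hQ]
      apply mul_eq_left _ hlam (succ_ne_zero kap)
      exact hk.trans ((le_succ kap).trans hlam)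
    · intro W' hW'
      obtain ⟨I, c, m, hI, hc⟩ := hsmall (Prod.fst '' W') (mk_image_le.trans_lt hW')
      refine ⟨I × kap.ord.ToType, ?_, ⟨SimpleGraph.Coloring.mk
        (fun a => (c a.1.1, χ (m (c a.1.1)) a.1.2)) ?_⟩⟩
      · rw [mk_prod, Cardinal.lift_id, Cardinal.lift_id, mk_ord_toType]
        exact (mul_le_mul' hI le_rfl).trans (mul_eq_self hk).le
      · rintro ⟨⟨x, p⟩, ha⟩ ⟨⟨y, q⟩, hb⟩ ⟨hne, hadj⟩ heq
        have e1 : c x = c y := congrArg Prod.fst heq
        have e2 : χ (m (c x)) p = χ (m (c y)) q := congrArg Prod.snd heq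
        rw [← e1] at e2
        have h3 : ¬ dd p q ≤ m (c x) := fun h' => hχ _ p q hne h' e2
        exact hc x ⟨_, ha, rfl⟩ y ⟨_, hb, rfl⟩ e1 (hG (not_le.1 h3).le hadj)
  obtain ⟨C, hC, ⟨col⟩⟩ := hT
  have hex : ∀ x : V, ∃ p q : Q, p ≠ q ∧ col (x, p) = col (x, q) := by
    intro x
    have h1 : ¬ Function.Injective (fun p : Q => col (x, p)) := by
      intro hinj
      have h2 := (Cardinal.mk_le_of_injective hinj).trans hC
      rw [hQ] at h2
      exact absurd (lt_succ kap) (not_lt.2 h2)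
    rw [Function.Injective] at h1
    push Not at h1
    obtain ⟨p, q, hpq, hne⟩ := h1
    exact ⟨p, q, hne, hpq⟩
  choose p q hne hcol using hex
  refine ⟨Q × Q × C, fun x => (p x, q x, col (x, p x)), fun i => dd i.1 i.2.1, ?_, ?_⟩
  · rw [mk_prod, mk_prod]
    simp only [Cardinal.lift_id]
    have h1 : ℵ₀ ≤ succ kap := hk.trans (le_succ kap)
    rw [hQ]
    refine (mul_le_mul' le_rfl (mul_le_mul' le_rfl (hC.trans (le_succ kap)))).trans ?_
    rw [mul_eq_self h1, mul_eq_self h1]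
  · intro x _ y _ hxy hadj
    have e1 : p x = p y := congrArg Prod.fst hxy
    have e2 : q x = q y := congrArg (fun t => t.2.1) hxy
    have e3 : col (x, p x) = col (y, p y) := congrArg (fun t => t.2.2) hxy
    have hadj' : T.Adj (x, p x) (y, q y) := by
      refine ⟨?_, ?_⟩
      · show p x ≠ q y
        rw [← e2]
        exact hne x
      · show (G (dd (p x) (q y))).Adj x y
        rw [← e2]
        exact hadj
    apply col.valid hadj'
    rw [e3, hcol y]

/-- Compactness for chromatic number at most `κ` at a regular cardinal `λ > κ⁺` implies reflection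
of the stationary sets of points of cofinality `κ`. -/
theorem reflect_zfc (hlam : lam.IsRegular) (hk : ℵ₀ ≤ kap) (hlt : succ kap < lam)
    (h : Compact lam kap) {S : Set Ordinal.{0}}
    (hS : ∀ δ ∈ S, δ.cof = kap) (hst : StatAt S lam.ord) : Reflects S lam.ord := by
  classical
  by_contra hnr
  have hal : ℵ₀ ≤ lam := hlam.aleph0_le
  have hSl : ∀ δ ∈ S, IsSuccLimit δ := by
    intro δ hδ
    rw [← one_lt_cof_iff, hS δ hδ]
    exact one_lt_aleph0.trans_le hk
  let lev : lam.ord.ToType → Ordinal.{0} := fun a => (ToType.toOrd a : Ordinal.{0})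
  have hlevlt : ∀ a, lev a < lam.ord := fun a => (ToType.toOrd a).2
  have hlev : ∀ a b, lev a < lev b ↔ a < b := by
    intro a b
    show (ToType.toOrd a : Ordinal.{0}) < ToType.toOrd b ↔ a < b
    rw [Subtype.coe_lt_coe]
    exact ToType.mk.symm.lt_iff_lt
  have hlevsurj : ∀ x < lam.ord, ∃ a, lev a = x := by
    intro x hx
    refine ⟨ToType.mk ⟨x, hx⟩, ?_⟩
    show ((ToType.toOrd (ToType.mk ⟨x, hx⟩) : Iio lam.ord) : Ordinal.{0}) = x
    simp [ToType.toOrd]
  have he : ∀ a : lam.ord.ToType, ∃ e : kap.ord.ToType → Ordinal.{0}, Monotone e ∧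
      (lev a ∈ S → (∀ γ, e γ < lev a) ∧ ∀ β < lev a, ∃ γ, β < e γ) := by
    intro a
    by_cases ha : lev a ∈ S
    · obtain ⟨e, h1, h2, h3⟩ := exists_seq hk (hS _ ha)
      exact ⟨e, h1, fun _ => ⟨h2, h3⟩⟩
    · exact ⟨fun _ => 0, fun _ _ _ => le_rfl, fun h' => absurd h' ha⟩
  choose e he1 he2 using he
  let R : kap.ord.ToType → lam.ord.ToType → lam.ord.ToType → Prop := fun m x y =>
    lev x ∈ S ∧ lev y ∈ S ∧ lev x < lev y ∧ e y m < lev x
  let G : kap.ord.ToType → SimpleGraph lam.ord.ToType := fun m =>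
    { Adj := fun x y => R m x y ∨ R m y x
      symm := ⟨fun _ _ h => h.symm⟩
      loopless := ⟨fun _ h => by
        rcases h with h | h
        · exact lt_irrefl _ h.2.2.1
        · exact lt_irrefl _ h.2.2.1⟩ }
  have hG : Antitone G := by
    intro m m' hm x y hxy
    rcases hxy with ⟨h1, h2, h3, h4⟩ | ⟨h1, h2, h3, h4⟩
    · exact Or.inl ⟨h1, h2, h3, (he1 y hm).trans_lt h4⟩
    · exact Or.inr ⟨h1, h2, h3, (he1 x hm).trans_lt h4⟩
  have hKne : Nonempty kap.ord.ToType := by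
    rw [← mk_ne_zero_iff, mk_ord_toType]
    exact (aleph0_pos.trans_le hk).ne'
  have hsmall : ∀ W : Set lam.ord.ToType, #W < lam → SplitsK G kap W := by
    intro Y hY
    have hYc : #Y < lam.ord.cof := by
      rw [hlam.cof_ord]
      exact hY
    have hlim : IsSuccLimit lam.ord := isSuccLimit_ord hal
    have h1 : (⨆ x : Y, (lev x.1 + 1)) < lam.ord :=
      Ordinal.iSup_lt_of_lt_cof hYc (fun x => hlim.succ_lt (hlevlt x.1))
    have hb : BddAbove (Set.range (fun x : Y => (lev x.1 + 1))) := Ordinal.bddAbove_of_small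
    have hbd : ∀ a ∈ Y, lev a < (⨆ x : Y, (lev x.1 + 1)) := fun a ha =>
      (lt_add_one _).trans_le (le_ciSup hb ⟨a, ha⟩)
    obtain ⟨t, ht⟩ := exists_types hSl hnr _ h1
    have hm : ∀ a : lam.ord.ToType, ∃ m : kap.ord.ToType, lev a ∈ S → a ∈ Y →
        ∀ ε ∈ S, e a m < ε → ε < lev a → t ε ≠ t (lev a) := by
      intro a
      by_cases ha : lev a ∈ S ∧ a ∈ Y
      · obtain ⟨g, hg1, hg2⟩ := ht (lev a) ha.1 (hbd a ha.2)
        obtain ⟨m, hm⟩ := (he2 a ha.1).2 g hg1
        exact ⟨m, fun _ _ ε h1 h2 h3 => hg2 ε h1 (hm.trans h2) h3⟩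
      · exact ⟨hKne.some, fun h1 h2 => absurd ⟨h1, h2⟩ ha⟩
    choose m hm using hm
    refine ⟨ℕ × kap.ord.ToType, fun a => (t (lev a), m a), fun i => i.2, ?_, ?_⟩
    · rw [mk_prod, Cardinal.lift_id, Cardinal.lift_id, mk_ord_toType, mk_nat]
      exact (mul_le_mul' hk le_rfl).trans (mul_eq_self hk).le
    · have key : ∀ x ∈ Y, ∀ y ∈ Y, t (lev x) = t (lev y) → m x = m y → ¬ R (m y) x y := by
        rintro x _ y hy h1 _ ⟨h3, h4, h5, h6⟩
        exact hm y h4 hy (lev x) h3 h6 h5 h1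
      intro x hx y hy hxy hadj
      have e1 : t (lev x) = t (lev y) := congrArg Prod.fst hxy
      have e2 : m x = m y := congrArg Prod.snd hxy
      rcases hadj with h2 | h2
      · have h3 : R (m x) x y := h2
        rw [e2] at h3
        exact key x hx y hy e1 e2 h3
      · have h3 : R (m x) y x := h2
        exact key y hy x hx e1.symm e2.symm h3
  obtain ⟨I, c, m, hI, hc⟩ := joint_succ hk hlt.le h _ (mk_ord_toType lam) G hG hsmall
  obtain ⟨i, δ, hδ, hδl, ⟨α, hα1, hα2, hα3⟩, hcl⟩ := exists_pigeon hlam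
    (hk.trans_lt ((lt_succ kap).trans hlt)) (hI.trans_lt hlt)
    (fun i => {x | ∃ a, c a = i ∧ lev a ∈ S ∧ lev a = x}) hst (by
      intro δ hδ hδl
      obtain ⟨a, ha⟩ := hlevsurj δ hδl
      exact ⟨c a, a, rfl, by rw [ha]; exact hδ, ha⟩)
  have h1 := (he2 α hα2).1 (m i)
  rw [hα3] at h1
  obtain ⟨γ, ⟨β, hβ1, hβ2, hβ3⟩, h2, h3⟩ := hcl _ h1
  apply hc β (Set.mem_univ _) α (Set.mem_univ _) (by rw [hβ1, hα1])
  rw [hβ1]
  refine Or.inl ⟨hβ2, hα2, ?_, ?_⟩
  · rw [hβ3, hα3]
    exact h3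
  · rw [hβ3]
    exact h2

end ChromComp
end

section

/-!
# MP_80affc_lc : `φ(0)` implies reflection at the cofinalities `ℵ₀, 2^ℵ₀, 2^(2^ℵ₀), ...`
-/

set_option autoImplicit false

namespace ChromComp

open Cardinal Ordinal Order Set

/-- the limit ordinals form a club -/
theorem isClub_limits {lam : Cardinal.{0}} (hlam : ℵ₀ < lam) :
    IsClub {x : Iio lam.ord | IsSuccLimit (x : Ordinal.{0})} := by
  constructor
  · intro d hd hne _ a ha
    show IsSuccLimit (a : Ordinal.{0})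
    obtain ⟨y, hy⟩ := hne
    have hya : (y : Ordinal.{0}) ≤ a := ha.1 hy
    have hpos : (0 : Ordinal.{0}) < a := (hd hy).bot_lt.trans_le hya
    refine ⟨not_isMin_of_lt hpos, ?_⟩
    intro b hb
    have hbl : b < lam.ord := hb.1.trans a.2
    have h1 : ∃ z ∈ d, (⟨b, hbl⟩ : Iio lam.ord) < z := by
      by_contra hcon
      push Not at hcon
      have h2 : a ≤ ⟨b, hbl⟩ := ha.2 (fun z hz => hcon z hz)
      exact absurd hb.1 (not_lt.2 h2)
    obtain ⟨z, hz, hbz⟩ := h1
    have hza : (z : Ordinal.{0}) ≤ a := ha.1 hz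
    have hbz' : b < (z : Ordinal.{0}) := hbz
    have h3 : b + 1 < (z : Ordinal.{0}) := (hd hz).succ_lt hbz'
    exact hb.2 (lt_add_one b) (h3.trans_le hza)
  · intro a
    have h1 : (a : Ordinal.{0}) + ω < lam.ord := by
      apply isPrincipal_add_ord hlam.le a.2
      rw [← ord_aleph0]
      exact ord_lt_ord.2 hlam
    refine ⟨⟨_, h1⟩, ?_, ?_⟩
    · exact isSuccLimit_add _ isSuccLimit_omega0
    · show (a : Ordinal.{0}) ≤ a + ω
      exact le_self_add

/-- A limit ordinal below `ω_(ω+1)` has cofinality `ℵ_n` for a natural number `n`. -/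
theorem cof_eq_aleph {x : Ordinal.{0}} (hx : x < (ℵ_ (ω + 1) : Cardinal.{0}).ord)
    (hlim : IsSuccLimit x) : ∃ n : ℕ, x.cof = ℵ_ (n : Ordinal) := by
  have hreg : x.cof.IsRegular := isRegular_cof hlim
  have h1 : x.cof ≤ ℵ_ ω := by
    have h2 : x.card < ℵ_ (ω + 1) := lt_ord.1 hx
    rw [← succ_aleph] at h2
    exact (cof_le_card x).trans (Order.lt_succ_iff.1 h2)
  obtain ⟨o, ho⟩ := mem_range_aleph_iff.2 hreg.aleph0_le
  have h3 : o ≤ ω := by
    rw [← ho, aleph_le_aleph] at h1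
    exact h1
  rcases h3.lt_or_eq with h4 | h4
  · obtain ⟨n, rfl⟩ := lt_omega0.1 h4
    exact ⟨n, ho.symm⟩
  · exfalso
    subst h4
    rw [← ho] at hreg
    have h5 := hreg.cof_ord
    rw [ord_aleph, cof_omega isSuccLimit_omega0, cof_omega0] at h5
    have h6 : ℵ₀ < (ℵ_ ω : Cardinal.{0}) := aleph0_lt_aleph.2 omega0_pos
    rw [← h5] at h6
    exact lt_irrefl _ h6

theorem Reflects.mono {S T : Set Ordinal.{0}} {o : Ordinal.{0}} (h : S ⊆ T) (hS : Reflects S o) :
    Reflects T o := by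
  obtain ⟨δ, h1, h2, h3⟩ := hS
  exact ⟨δ, h1, h2, h3.mono (fun x hx => h hx)⟩

theorem phi_zero_iff : phi 0 ↔ Compact (ℵ_ (ω + 1)) ℵ₀ := by
  unfold phi
  rw [Nat.cast_zero, aleph_zero]

theorem compact_beth {lam : Cardinal.{0}} (hlam : ℵ₀ ≤ lam) (h : Compact lam ℵ₀) (j : ℕ) :
    Compact lam (ℶ_ (j : Ordinal.{0})) := by
  induction j with
  | zero =>
    rw [Nat.cast_zero, beth_zero]
    exact h
  | succ j ih =>
    rw [Nat.cast_succ, beth_add_one]
    exact compact_two_power hlam (aleph0_le_beth _) ih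

/-- `φ(0)` implies that every stationary subset of `ω_(ω+1)` consisting of points whose cofinality is
one of the cardinals `ℵ₀, 2^ℵ₀, 2^(2^ℵ₀), ...` reflects. -/
theorem reflect_beth (h : phi 0) {S : Set Ordinal.{0}}
    (hS : ∀ δ ∈ S, ∃ j : ℕ, δ.cof = ℶ_ (j : Ordinal.{0})) (hst : StatAt S (ω_ (ω + 1))) :
    Reflects S (ω_ (ω + 1)) := by
  have ho : (ω_ (ω + 1) : Ordinal.{0}) = (ℵ_ (ω + 1) : Cardinal.{0}).ord := (ord_aleph _).symm
  rw [ho] at hst ⊢
  have hreg : (ℵ_ (ω + 1) : Cardinal.{0}).IsRegular := isRegular_aleph_add_one ω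
  have hbig : ℵ₀ < (ℵ_ (ω + 1) : Cardinal.{0}) := aleph0_lt_aleph.2 (by positivity)
  have h' := phi_zero_iff.1 h
  let A : ℕ → Set (Iio (ℵ_ (ω + 1) : Cardinal.{0}).ord) := fun j =>
    {x | (x : Ordinal.{0}) ∈ S ∧ (x : Ordinal.{0}).cof = ℶ_ (j : Ordinal.{0})}
  have hst' : IsStationary (⋃ i, A i) := by
    apply hst.mono
    intro x hx
    rw [mem_iUnion]
    obtain ⟨j, hj⟩ := hS _ hx
    exact ⟨j, hx, hj⟩
  have hcof : Order.cof (Iio (ℵ_ (ω + 1) : Cardinal.{0}).ord) ≠ ℵ₀ := by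
    rw [Ordinal.cof_Iio, ← lift_cof, hreg.cof_ord, ← lift_aleph0.{1, 0}]
    exact fun hcon => hbig.ne' (Cardinal.lift_injective hcon)
  rw [isStationary_iUnion_iff_of_countable hcof] at hst'
  obtain ⟨j, hj⟩ := hst'
  obtain ⟨x, -, hx⟩ := hj.nonempty
  have hlim : IsSuccLimit (x : Ordinal.{0}) := by
    rw [← one_lt_cof_iff, hx]
    exact one_lt_aleph0.trans_le (aleph0_le_beth _)
  obtain ⟨n, hn⟩ := cof_eq_aleph x.2 hlim
  have hlt : succ (ℶ_ (j : Ordinal.{0}) : Cardinal.{0}) < ℵ_ (ω + 1) := by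
    rw [← hx, hn, succ_aleph, aleph_lt_aleph, ← Nat.cast_succ]
    exact (natCast_lt_omega0 (n + 1)).trans (lt_add_one ω)
  have h3 : Reflects {x | x ∈ S ∧ x.cof = ℶ_ (j : Ordinal.{0})}
      (ℵ_ (ω + 1) : Cardinal.{0}).ord :=
    reflect_zfc hreg (aleph0_le_beth _) hlt (compact_beth hbig.le h' j) (fun δ hδ => hδ.2) hj
  exact h3.mono (fun x hx => hx.1)

end ChromComp
end
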