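import Pool.Agent.Lib.MP_80affc_lc.Cor
import Pool.Agent.Lib.MP_80affc_lc.Beth

/-!
# MP_80affc_lc : products of alephs below `ℵ_ω` have small unbounded families

If `φ(0)` holds then, for every increasing sequence `i` of natural numbers, there is a family of
`ℵ_(ω+1)` functions in the product of the `ω_(i n)` which has no upper bound modulo finite.
Otherwise one could construct a very good sequence of functions, whose initial segments can be made
disjoint, which contradicts `no_sequences`.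
-/

set_option autoImplicit false

namespace ChromComp

open Cardinal Ordinal Order Set

/-- a small cofinal set below each point -/
theorem exists_cofinal_small (β : (ℵ_ (ω + 1) : Cardinal.{0}).ord.ToType) :
    ∃ E : Set (ℵ_ (ω + 1) : Cardinal.{0}).ord.ToType, (∃ m : ℕ, #E ≤ ℵ_ (m : Ordinal)) ∧ β ∈ E ∧
      ∀ α < β, ∃ e ∈ E, α ≤ e ∧ e < β := by
  let lev : (ℵ_ (ω + 1) : Cardinal.{0}).ord.ToType → Ordinal.{0} := fun a =>
    (ToType.toOrd a : Ordinal.{0})
  have hlevlt : ∀ a, lev a < (ℵ_ (ω + 1) : Cardinal.{0}).ord := fun a => (ToType.toOrd a).2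
  have hlev : ∀ a b, lev a < lev b ↔ a < b := by
    intro a b
    show (ToType.toOrd a : Ordinal.{0}) < ToType.toOrd b ↔ a < b
    rw [Subtype.coe_lt_coe]
    exact ToType.mk.symm.lt_iff_lt
  have hlevle : ∀ a b, lev a ≤ lev b ↔ a ≤ b := by
    intro a b
    rw [← not_lt, ← not_lt, hlev]
  have hlevsurj : ∀ x < (ℵ_ (ω + 1) : Cardinal.{0}).ord, ∃ a, lev a = x := by
    intro x hx
    refine ⟨ToType.mk ⟨x, hx⟩, ?_⟩
    show ((ToType.toOrd (ToType.mk ⟨x, hx⟩) : Iio (ℵ_ (ω + 1) : Cardinal.{0}).ord) :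
      Ordinal.{0}) = x
    simp [ToType.toOrd]
  have hfin : ∀ E : Set (ℵ_ (ω + 1) : Cardinal.{0}).ord.ToType, E.Finite →
      ∃ m : ℕ, #E ≤ ℵ_ (m : Ordinal) := by
    intro E hE
    refine ⟨0, hE.lt_aleph0.le.trans ?_⟩
    exact aleph0_le_aleph _
  rcases zero_or_succ_or_isSuccLimit (lev β) with h0 | ⟨y, hy⟩ | hlim
  · refine ⟨{β}, hfin _ (finite_singleton β), rfl, fun α hα => ?_⟩
    rw [← hlev, h0] at hα
    exact absurd hα (not_lt.2 bot_le)
  · have hy' : lev β = y + 1 := hy.symm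
    have hyl : y < lev β := by
      rw [hy']
      exact lt_add_one y
    obtain ⟨e, he⟩ := hlevsurj y (hyl.trans (hlevlt β))
    refine ⟨{β, e}, hfin _ (by simp), by simp, fun α hα => ⟨e, by simp, ?_, ?_⟩⟩
    · rw [← hlevle, he]
      rw [← hlev, hy'] at hα
      exact Order.lt_add_one_iff.1 hα
    · rw [← hlev, he]
      exact hyl
  · obtain ⟨n, hn⟩ := cof_eq_aleph (hlevlt β) hlim
    obtain ⟨d, -, h2, h3⟩ := exists_seq (aleph0_le_aleph (n : Ordinal)) hn
    have hd : ∀ γ, ∃ a, lev a = d γ := fun γ => hlevsurj _ ((h2 γ).trans (hlevlt β))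
    choose a ha using hd
    refine ⟨insert β (range a), ⟨n, ?_⟩, mem_insert _ _, fun α hα => ?_⟩
    · refine mk_insert_le.trans ?_
      have h4 : #(range a) ≤ ℵ_ (n : Ordinal) := by
        have h5 := Cardinal.mk_range_le (f := a)
        rw [mk_ord_toType] at h5
        exact h5
      exact (add_le_add_left h4 1).trans (add_one_eq (aleph0_le_aleph _)).le
    · obtain ⟨γ, hγ⟩ := h3 (lev α) ((hlev _ _).2 hα)
      refine ⟨a γ, mem_insert_of_mem _ ⟨γ, rfl⟩, ?_, ?_⟩
      · rw [← hlevle, ha]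
        exact hγ.le
      · rw [← hlev, ha]
        exact h2 γ

section

variable {Λ : Type} [LinearOrder Λ] [WellFoundedLT Λ] {i : ℕ → ℕ}

/-- the family of functions which has to be dominated -/
noncomputable def fam (i : ℕ → ℕ) (E : Λ → Set Λ) (γ : Λ) (prev : ∀ α < γ, ℕ → Ordinal.{0})
    (b : Λ) (n : ℕ) : Ordinal.{0} :=
  open Classical in
  if (⨆ a : {a : Λ // a ∈ E b ∧ a < γ}, (prev a.1 a.2.2 n + 1)) < ω_ (i n : Ordinal.{0}) then
    ⨆ a : {a : Λ // a ∈ E b ∧ a < γ}, (prev a.1 a.2.2 n + 1) else 0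

omit [WellFoundedLT Λ] in
theorem fam_lt (E : Λ → Set Λ) (γ : Λ) (prev : ∀ α < γ, ℕ → Ordinal.{0}) (b : Λ) (n : ℕ) :
    fam i E γ prev b n < ω_ (i n : Ordinal.{0}) := by
  unfold fam
  split_ifs with h
  · exact h
  · exact omega_pos _

/-- the construction of the sequence -/
theorem exists_better (hi : StrictMono i)
    (hD : ∀ F : Λ → ℕ → Ordinal.{0}, (∀ b n, F b n < ω_ (i n : Ordinal.{0})) →
      ∃ g : ℕ → Ordinal.{0}, (∀ n, g n < ω_ (i n : Ordinal.{0})) ∧
        ∀ b, ∃ k, ∀ n ≥ k, F b n ≤ g n)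
    (E : Λ → Set Λ) (hE : ∀ b, ∃ m : ℕ, #(E b) ≤ ℵ_ (m : Ordinal.{0})) :
    ∃ f : Λ → ℕ → Ordinal.{0}, (∀ γ n, f γ n < ω_ (i n : Ordinal.{0})) ∧
      ∀ γ b, ∃ k, ∀ n ≥ k, ∀ a ∈ E b, a < γ → f a n < f γ n := by
  classical
  have hwf : WellFounded (fun y x : Λ => y < x) := wellFounded_lt
  let f : Λ → ℕ → Ordinal.{0} := hwf.fix (fun γ prev =>
    (hD (fam i E γ prev) (fam_lt E γ prev)).choose)
  have hf : ∀ γ, f γ = (hD (fam i E γ (fun a _ => f a)) (fam_lt E γ _)).choose := by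
    intro γ
    exact hwf.fix_eq _ γ
  have hs : ∀ γ, (∀ n, f γ n < ω_ (i n : Ordinal.{0})) ∧
      ∀ b, ∃ k, ∀ n ≥ k, fam i E γ (fun a _ => f a) b n ≤ f γ n := by
    intro γ
    rw [hf γ]
    exact (hD (fam i E γ (fun a _ => f a)) (fam_lt E γ _)).choose_spec
  refine ⟨f, fun γ => (hs γ).1, ?_⟩
  intro γ b
  obtain ⟨k, hk⟩ := (hs γ).2 b
  obtain ⟨m, hm⟩ := hE b
  refine ⟨max k (m + 1), ?_⟩
  intro n hn a ha haγ
  have hn1 : k ≤ n := (le_max_left _ _).trans hn
  have hn2 : m + 1 ≤ n := (le_max_right _ _).trans hn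
  have hin : m + 1 ≤ i n := hn2.trans hi.le_apply
  have hcof : (ω_ (i n : Ordinal.{0})).cof = ℵ_ (i n : Ordinal.{0}) := by
    have h1 : i n = (i n - 1) + 1 := by omega
    rw [h1, Nat.cast_succ]
    have h2 := (isRegular_aleph_add_one (((i n - 1 : ℕ) : Ordinal.{0}))).cof_ord
    rw [ord_aleph] at h2
    exact h2
  have hsup : (⨆ a : {a : Λ // a ∈ E b ∧ a < γ}, (f a.1 n + 1)) < ω_ (i n : Ordinal.{0}) := by
    apply Ordinal.iSup_lt_of_lt_cof
    · rw [hcof]
      have h1 : #{a : Λ // a ∈ E b ∧ a < γ} ≤ #(E b) :=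
        mk_le_mk_of_subset (s := {a | a ∈ E b ∧ a < γ}) (fun a ha => ha.1)
      refine (h1.trans hm).trans_lt ?_
      rw [aleph_lt_aleph]
      exact_mod_cast (show m < i n by omega)
    · intro a
      exact (isSuccLimit_omega _).succ_lt ((hs a.1).1 n)
  have h1 := hk n hn1
  unfold fam at h1
  rw [if_pos hsup] at h1
  have hb : BddAbove (Set.range (fun a : {a : Λ // a ∈ E b ∧ a < γ} => (f a.1 n + 1))) :=
    Ordinal.bddAbove_of_small
  have h2 : f a n + 1 ≤ ⨆ a : {a : Λ // a ∈ E b ∧ a < γ}, (f a.1 n + 1) :=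
    le_ciSup hb ⟨a, ha, haγ⟩
  exact (lt_add_one _).trans_le (h2.trans h1)

/-- initial segments can be made increasing everywhere -/
theorem better_free {f : Λ → ℕ → Ordinal.{0}} {E : Λ → Set Λ} (hself : ∀ β, β ∈ E β)
    (hcof : ∀ β, ∀ α < β, ∃ e ∈ E β, α ≤ e ∧ e < β)
    (hf : ∀ γ b, ∃ k, ∀ n ≥ k, ∀ a ∈ E b, a < γ → f a n < f γ n) (β : Λ) :
    ∃ F : Λ → ℕ, ∀ α < β, ∀ α' < β, α < α' → ∀ n, F α ≤ n → F α' ≤ n → f α n < f α' n := by
  classical
  choose k hk using hf
  induction β using WellFoundedLT.induction with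
  | ind β ih =>
    choose F hF using ih
    -- the least element of `E β` above `α`
    have hmin : ∀ α, ∃ e, α < β → e ∈ E β ∧ α ≤ e ∧ e < β ∧ ∀ e' ∈ E β, α ≤ e' → e ≤ e' := by
      intro α
      by_cases h : α < β
      · have hne : {e | e ∈ E β ∧ α ≤ e}.Nonempty := by
          obtain ⟨e, h1, h2, -⟩ := hcof β α h
          exact ⟨e, h1, h2⟩
        refine ⟨wellFounded_lt.min _ hne, fun _ => ?_⟩
        have h1 := wellFounded_lt.min_mem _ hne
        refine ⟨h1.1, h1.2, ?_, fun e' he' hle => ?_⟩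
        swap
        · have h5 : e' ∈ {e | e ∈ E β ∧ α ≤ e} := ⟨he', hle⟩
          exact not_lt.1 (wellFounded_lt.not_lt_min _ h5)
        obtain ⟨e, h2, h3, h4⟩ := hcof β α h
        have h5 : e ∈ {e | e ∈ E β ∧ α ≤ e} := ⟨h2, h3⟩
        exact (not_lt.1 (wellFounded_lt.not_lt_min _ h5)).trans_lt h4
      · exact ⟨α, fun h' => absurd h' h⟩
    choose e he using hmin
    refine ⟨fun α => max (k α β) (max (k (e α) α)
      (if h : e α < β then F (e α) h α else 0)), ?_⟩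
    intro α hα α' hα' hlt n hn hn'
    obtain ⟨h1, h2, h3, h4⟩ := he α hα
    obtain ⟨h1', h2', h3', h4'⟩ := he α' hα'
    have hn1 : k (e α) α ≤ n := ((le_max_left _ _).trans (le_max_right _ _)).trans hn
    have hn2 : k α' β ≤ n := (le_max_left _ _).trans hn'
    have hn3 : F (e α) h3 α ≤ n := by
      have h5 := ((le_max_right _ _).trans (le_max_right _ _)).trans hn
      rwa [dif_pos h3] at h5
    have hn3' : F (e α') h3' α' ≤ n := by
      have h5 := ((le_max_right _ _).trans (le_max_right _ _)).trans hn'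
      rwa [dif_pos h3'] at h5
    by_cases hee : e α = e α'
    · rcases h2'.lt_or_eq with h6 | h6
      · have h7 : α < e α := hlt.trans (hee ▸ h6)
        have h8 : α' < e α := hee ▸ h6
        have hn4 : F (e α) h3 α' ≤ n := by
          have h9 : ∀ (x y : Λ) (hx : x < β) (hy : y < β), x = y → F x hx α' = F y hy α' := by
            rintro x y hx hy rfl
            rfl
          rw [h9 _ _ h3 h3' hee]
          exact hn3'
        exact hF (e α) h3 α h7 α' h8 hlt n hn3 hn4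
      · have h7 : α < e α := by
          rw [hee, ← h6]
          exact hlt
        have h8 := hk (e α) α n hn1 α (hself α) h7
        rw [hee, ← h6] at h8
        exact h8
    · have h6 : e α < α' := by
        by_contra h7
        have h8 := h4' (e α) h1 (not_lt.1 h7)
        have h9 := h4 (e α') h1' (hlt.le.trans h2')
        exact hee (le_antisymm h9 h8)
      have h7 : f (e α) n < f α' n := hk α' β n hn2 (e α) h1 h6
      rcases h2.lt_or_eq with h8 | h8
      · exact (hk (e α) α n hn1 α (hself α) h8).trans h7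
      · rw [← h8] at h7
        exact h7

end

/-- `φ(0)` implies that the product of the `ω_(i n)` has an unbounded family of `ℵ_(ω+1)`
functions. -/
theorem exists_unbounded (h : phi 0) (i : ℕ → ℕ) (hi : StrictMono i) :
    ∃ F : (ℵ_ (ω + 1) : Cardinal.{0}).ord.ToType → ℕ → Ordinal.{0},
      (∀ b n, F b n < ω_ (i n : Ordinal.{0})) ∧
      ∀ g : ℕ → Ordinal.{0}, (∀ n, g n < ω_ (i n : Ordinal.{0})) →
        ∃ b, ∀ k, ∃ n ≥ k, g n < F b n := by
  classical
  by_contra hcon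
  push Not at hcon
  choose E hE1 hE2 hE3 using exists_cofinal_small
  obtain ⟨f, hf1, hf2⟩ := exists_better hi hcon E hE1
  have hreg : (ℵ_ (ω + 1) : Cardinal.{0}).IsRegular := isRegular_aleph_add_one ω
  have hlt : ∀ (x : (ℵ_ (ω + 1) : Cardinal.{0}).ord.ToType) (n : ℕ),
      f x n < (ℵ_ ω : Cardinal.{0}).ord := by
    intro x n
    refine (hf1 x n).trans_le ?_
    rw [ord_aleph]
    exact omega_le_omega.2 (natCast_lt_omega0 (i n)).le
  obtain ⟨W, hW, hW'⟩ := no_sequences h (ℵ_ (ω + 1) : Cardinal.{0}).ord.ToType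
    (ℵ_ ω : Cardinal.{0}).ord.ToType (mk_ord_toType _) (mk_ord_toType _).le
    (fun x n => ToType.mk ⟨f x n, hlt x n⟩)
  -- `W` is bounded
  have hbd : ∃ β, ∀ x ∈ W, x < β := by
    have hYc : #W < (ℵ_ (ω + 1) : Cardinal.{0}).ord.cof := by
      rw [hreg.cof_ord]
      exact hW
    have hlim : IsSuccLimit (ℵ_ (ω + 1) : Cardinal.{0}).ord := isSuccLimit_ord hreg.aleph0_le
    have h1 : (⨆ x : W, ((ToType.toOrd x.1 : Ordinal.{0}) + 1)) <
        (ℵ_ (ω + 1) : Cardinal.{0}).ord :=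
      Ordinal.iSup_lt_of_lt_cof hYc (fun x => hlim.succ_lt (ToType.toOrd x.1).2)
    refine ⟨ToType.mk ⟨_, h1⟩, fun x hx => ?_⟩
    have hb : BddAbove (Set.range (fun x : W => ((ToType.toOrd x.1 : Ordinal.{0}) + 1))) :=
      Ordinal.bddAbove_of_small
    have h2 : (ToType.toOrd x : Ordinal.{0}) + 1 ≤
        ⨆ x : W, ((ToType.toOrd x.1 : Ordinal.{0}) + 1) := le_ciSup hb ⟨x, hx⟩
    have h3' : (ToType.toOrd x : Ordinal.{0}) <
        ⨆ x : W, ((ToType.toOrd x.1 : Ordinal.{0}) + 1) := (lt_add_one _).trans_le h2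
    have h3 : ToType.toOrd x < ⟨_, h1⟩ := h3'
    have h4 := ToType.mk.lt_iff_lt.2 h3
    simpa [ToType.toOrd] using h4
  obtain ⟨β, hβ⟩ := hbd
  obtain ⟨F, hF⟩ := better_free (f := f) hE2 hE3 hf2 β
  obtain ⟨x, hx, y, hy, hne, hFxy, heq⟩ := hW' F
  have h1 := heq (F x) le_rfl
  have h2 := ToType.mk.injective h1
  have h3 : f x (F x) = f y (F x) := Subtype.mk_eq_mk.1 h2
  rcases lt_or_gt_of_ne hne with h4 | h4
  · have h5 := hF x (hβ x hx) y (hβ y hy) h4 (F x) le_rfl hFxy.ge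
    rw [h3] at h5
    exact lt_irrefl _ h5
  · have h5 := hF y (hβ y hy) x (hβ x hx) h4 (F x) hFxy.ge le_rfl
    rw [h3] at h5
    exact lt_irrefl _ h5

end ChromComp
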