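import Pool.Agent.Lib.MP_80affc_lc.Real

/-!
# MP_80affc_lc : consequences of joint compactness at `ℵ_(ω+1)`
-/

set_option autoImplicit false

namespace ChromComp

open Cardinal Ordinal Order Set

/-- A set of size at most `ℵ_ω` is the union of an increasing sequence of sets, the `m`-th of size at
most `ℵ_m`. -/
theorem exists_sizes {V : Type} (W : Set V) (hW : #W < ℵ_ (ω + 1)) :
    ∃ l : V → ℕ, ∀ m : ℕ, #{x | x ∈ W ∧ l x ≤ m} ≤ ℵ_ (m : Ordinal) := by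
  classical
  have hW1 : #W ≤ ℵ_ ω := by
    rw [← succ_aleph] at hW
    exact Order.lt_succ_iff.1 hW
  have hW2 : #W ≤ #(ℵ_ ω : Cardinal.{0}).ord.ToType := by
    rw [mk_ord_toType]
    exact hW1
  obtain ⟨j⟩ := hW2
  let r : W → Ordinal.{0} := fun x => (ToType.toOrd (j x) : Ordinal.{0})
  have hr : Function.Injective r := by
    intro x y hxy
    apply j.injective
    have h1 : ToType.toOrd (j x) = ToType.toOrd (j y) := Subtype.ext hxy
    exact ToType.mk.symm.injective h1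
  have hlt : ∀ x, r x < (ℵ_ ω : Cardinal.{0}).ord := fun x => (ToType.toOrd (j x)).2
  have hex : ∀ x : V, ∃ n : ℕ, ∀ hx : x ∈ W, r ⟨x, hx⟩ < (ℵ_ (n : Ordinal) : Cardinal.{0}).ord := by
    intro x
    by_cases hx : x ∈ W
    · have h1 := hlt ⟨x, hx⟩
      rw [lt_ord, aleph_limit isSuccLimit_omega0] at h1
      have : Nonempty (Set.Iio (ω : Ordinal.{0})) := ⟨⟨0, omega0_pos⟩⟩
      obtain ⟨⟨o, ho⟩, h2⟩ := exists_lt_of_lt_ciSup h1
      obtain ⟨n, rfl⟩ := lt_omega0.1 ho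
      refine ⟨n, fun _ => ?_⟩
      rw [lt_ord]
      exact h2
    · exact ⟨0, fun h => absurd h hx⟩
  choose l hl using hex
  refine ⟨l, fun m => ?_⟩
  have hf : ∀ x : {x | x ∈ W ∧ l x ≤ m}, r ⟨x.1, x.2.1⟩ < (ℵ_ (m : Ordinal) : Cardinal.{0}).ord := by
    intro x
    refine (hl x.1 x.2.1).trans_le ?_
    rw [ord_le_ord, aleph_le_aleph]
    exact_mod_cast x.2.2
  have h2 : #{x | x ∈ W ∧ l x ≤ m} ≤ #(ℵ_ (m : Ordinal) : Cardinal.{0}).ord.ToType := by
    apply Cardinal.mk_le_of_injective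
      (f := fun x : {x | x ∈ W ∧ l x ≤ m} => ToType.mk ⟨r ⟨x.1, x.2.1⟩, hf x⟩)
    intro x y hxy
    have h3 := ToType.mk.injective hxy
    have h4 : r ⟨x.1, x.2.1⟩ = r ⟨y.1, y.2.1⟩ := Subtype.mk_eq_mk.1 h3
    have h6 := hr h4
    have h5 : x.1 = y.1 := Subtype.mk_eq_mk.1 h6
    exact Subtype.ext h5
  rw [mk_ord_toType] at h2
  exact h2

/-- Joint compactness at `ℵ_(ω+1)`: it is enough to look at the sets of size `ℵ_m` and at the graph
`G m`. -/
theorem joint_levels (h : phi 0) (V : Type) (hV : #V = ℵ_ (ω + 1)) (G : ℕ → SimpleGraph V) (hG : Antitone G)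
    (hsmall : ∀ m : ℕ, ∀ W : Set V, #W ≤ ℵ_ (m : Ordinal) → ChromLE ((G m).induce W) ℵ₀) :
    Splits G Set.univ := by
  classical
  have h' : Compact (ℵ_ (ω + 1)) ℵ₀ := by
    have h1 := h
    unfold phi at h1
    rwa [Nat.cast_zero, aleph_zero] at h1
  apply joint (aleph0_lt_aleph.2 (by positivity)) h' V hV G hG
  intro W hW
  obtain ⟨l, hl⟩ := exists_sizes W hW
  have h1 : ∀ m : ℕ, ∃ c : V → ℕ, ∀ x ∈ W, ∀ y ∈ W, l x ≤ m → l y ≤ m → c x = c y →
      ¬ (G m).Adj x y := by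
    intro m
    obtain ⟨C, hC, ⟨col⟩⟩ := hsmall m _ (hl m)
    rw [← mk_nat] at hC
    obtain ⟨j⟩ := hC
    refine ⟨fun x => if hx : x ∈ W ∧ l x ≤ m then j (col ⟨x, hx⟩) else 0, ?_⟩
    intro x hx y hy hlx hly hxy hadj
    have hx' : x ∈ W ∧ l x ≤ m := ⟨hx, hlx⟩
    have hy' : y ∈ W ∧ l y ≤ m := ⟨hy, hly⟩
    simp only [dif_pos hx', dif_pos hy'] at hxy
    exact col.valid (v := ⟨x, hx'⟩) (w := ⟨y, hy'⟩) hadj (j.injective hxy)
  choose c hc using h1
  refine ⟨fun x => Nat.pair (l x) (c (l x) x), ?_⟩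
  intro x hx y hy hxy hadj
  have hxy' : Nat.pair (l x) (c (l x) x) = Nat.pair (l y) (c (l y) y) := hxy
  rw [Nat.pair_eq_pair] at hxy'
  obtain ⟨e1, e2⟩ := hxy'
  apply hc (l x) x hx y hy le_rfl e1.ge
  · rw [e2, e1]
  · exact hG (Nat.left_le_pair (l x) (c (l x) x)) hadj

/-- If compactness for countable chromatic number holds at `ℵ_(ω+1)`, there is no family of
`ℵ_(ω+1)` sequences from a set of size at most `ℵ_ω`, all smaller subfamilies of which can be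
disjointified. -/
theorem no_sequences (h : phi 0) (V P : Type) (hV : #V = ℵ_ (ω + 1)) (hP : #P ≤ ℵ_ ω) (a : V → ℕ → P) :
    ∃ W : Set V, #W < ℵ_ (ω + 1) ∧ ∀ F : V → ℕ, ∃ x ∈ W, ∃ y ∈ W, x ≠ y ∧ F x = F y ∧
      ∀ n ≤ F x, a x n = a y n := by
  classical
  by_contra hcon
  push Not at hcon
  let G : ℕ → SimpleGraph V := fun m =>
    { Adj := fun x y => x ≠ y ∧ ∀ n ≤ m, a x n = a y n
      symm := ⟨fun x y h => ⟨h.1.symm, fun n hn => (h.2 n hn).symm⟩⟩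
      loopless := ⟨fun x h => h.1 rfl⟩ }
  have hG : Antitone G := by
    intro m m' hm x y hxy
    exact ⟨hxy.1, fun n hn => hxy.2 n (hn.trans hm)⟩
  have h' : Compact (ℵ_ (ω + 1)) ℵ₀ := by
    have h1 := h
    unfold phi at h1
    rwa [Nat.cast_zero, aleph_zero] at h1
  obtain ⟨c, hc⟩ := joint (aleph0_lt_aleph.2 (by positivity)) h' V hV G hG (by
    intro W hW
    obtain ⟨F, hF⟩ := hcon W hW
    refine ⟨F, ?_⟩
    intro x hx y hy hxy hadj
    obtain ⟨n, hn, hne⟩ := hF x hx y hy hadj.1 hxy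
    exact hne (hadj.2 n hn))
  have h1 : #V ≤ #(Σ k : ℕ, (Fin (k + 1) → P)) := by
    apply Cardinal.mk_le_of_injective (f := fun x => ⟨c x, fun i => a x i⟩)
    intro x y hxy
    have e1 : c x = c y := congrArg Sigma.fst hxy
    by_contra hne
    apply hc x (Set.mem_univ _) y (Set.mem_univ _) e1
    refine ⟨hne, fun n hn => ?_⟩
    have e2 : (⟨c x, fun i => a x i⟩ : Σ k : ℕ, (Fin (k + 1) → P)) = ⟨c y, fun i => a y i⟩ := hxy
    have e3 : ∀ s t : Σ k : ℕ, (Fin (k + 1) → P), s = t → ∀ (h1 : n < s.1 + 1) (h2 : n < t.1 + 1),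
        s.2 ⟨n, h1⟩ = t.2 ⟨n, h2⟩ := by
      rintro s t rfl _ _
      rfl
    exact e3 _ _ e2 (Nat.lt_succ_of_le hn) (Nat.lt_succ_of_le (e1 ▸ hn))
  have h2 : #(Σ k : ℕ, (Fin (k + 1) → P)) ≤ ℵ_ ω := by
    rw [mk_sigma]
    refine (Cardinal.sum_le_lift_mk_mul_iSup _).trans ?_
    rw [Cardinal.lift_id, mk_nat]
    have h3 : (⨆ k : ℕ, #(Fin (k + 1) → P)) ≤ ℵ_ ω := by
      apply ciSup_le'
      intro k
      rw [mk_pi, Cardinal.prod_const, Cardinal.lift_id, Cardinal.lift_id, mk_fin]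
      refine (Cardinal.power_le_power_right hP).trans ?_
      exact_mod_cast Cardinal.power_nat_le (aleph0_le_aleph ω)
    exact (mul_le_mul' (aleph0_le_aleph ω) h3).trans (mul_eq_self (aleph0_le_aleph ω)).le
  rw [hV] at h1
  have h3 := h1.trans h2
  rw [aleph_le_aleph] at h3
  exact absurd h3 (not_le.2 (lt_add_one ω))

end ChromComp
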