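import Mathlib

/-!
# MP_80affc_lc : definitions

Compactness for chromatic numbers at a cardinal, and reflection of stationary sets.
-/

set_option autoImplicit false

namespace ChromComp

open Cardinal Ordinal

/-- The chromatic number of `G` is at most `κ`. -/
def ChromLE {V : Type} (G : SimpleGraph V) (κ : Cardinal.{0}) : Prop :=
  ∃ C : Type, #C ≤ κ ∧ Nonempty (G.Coloring C)

/-- Every graph of size `lam` all of whose subgraphs of smaller size have chromatic number at most
`mu` has chromatic number at most `mu`. -/
def Compact (lam mu : Cardinal.{0}) : Prop :=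
  ∀ (V : Type) (G : SimpleGraph V), #V = lam →
    (∀ W : Set V, #W < lam → ChromLE (G.induce W) mu) → ChromLE G mu

/-- The assertion `φ(n)` of the problem. -/
def phi (n : ℕ) : Prop := Compact (ℵ_ (ω + 1)) (ℵ_ (n : Ordinal))

/-- `S ∩ o` is a stationary subset of the ordinal `o` (`IsStationary` is the notion of Mathlib for
subsets of a linear order: a set which meets all closed cofinal sets). -/
def StatAt (S : Set Ordinal.{0}) (o : Ordinal.{0}) : Prop :=
  IsStationary {x : Set.Iio o | (x : Ordinal) ∈ S}

/-- `S` reflects below `o`: there is an ordinal `δ < o` of uncountable cofinality such that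
`S ∩ δ` is stationary in `δ`. -/
def Reflects (S : Set Ordinal.{0}) (o : Ordinal.{0}) : Prop :=
  ∃ δ < o, ℵ₀ < δ.cof ∧ StatAt S δ

/-- The sets of at most `kap` elements of `Λ` have a cofinal family of size `#Λ`. -/
def Covering (Λ : Type) (kap : Cardinal.{0}) : Prop :=
  ∃ N : Λ → Set Λ, (∀ a, #(N a) ≤ kap) ∧ ∀ A : Set Λ, #A ≤ kap → ∃ a, A ⊆ N a

/-- There is a family of at most `#Λ` functions `K → K` which is unbounded: no function is
eventually larger than every member of the family. -/
def Unbounded (Λ K : Type) [LinearOrder K] : Prop :=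
  ∃ f : Λ → K → K, ∀ F : K → K, ∃ b, ∀ m, ∃ m' ≥ m, F m' ≤ f b m'

end ChromComp
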